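import Pool.Agent.Lib.MP_d9b062_al_h9.Weights

/-!
# Task OMEGA
-/

namespace Pool.Agent.Lib.MP_d9b062_al

open NormedSpace Filter
open scoped Topology

variable {N : ℕ} {G : Subgroup (Op N)ˣ} {A : Submodule ℝ (Op N)} {ι : Type} [Fintype ι]
  [LinearOrder ι]

namespace H9

/-- derivative along a one-parameter subgroup -/
theorem fderiv_eq_zero {F : Op N → ℝ} (hF : F ∈ PolyFun (Op N)) (a b V' : Op N)
    (h : ∀ t : ℝ, F (a * exp (t • V') * b) = 0) : fderiv ℝ F (a * b) (a * V' * b) = 0 := by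
  have h1 : HasDerivAt (fun t : ℝ => exp (t • V')) (exp ((0 : ℝ) • V') * V') 0 :=
    hasDerivAt_exp_smul_const V' (0 : ℝ)
  have h0 : ((0 : ℝ) • V') = 0 := zero_smul ℝ V'
  rw [h0, exp_zero, one_mul] at h1
  have h2 : HasDerivAt (fun t : ℝ => a * exp (t • V') * b) (a * V' * b) 0 :=
    (h1.const_mul a).mul_const b
  have h3 : HasFDerivAt F (fderiv ℝ F (a * b)) (a * exp ((0 : ℝ) • V') * b) := by
    rw [h0, exp_zero, mul_one]
    exact ((PolyFun.contDiff hF (n := 1)).differentiable (by norm_num)).differentiableAt.hasFDerivAt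
  have h4 := h3.comp_hasDerivAt (0 : ℝ) h2
  have h5 : (F ∘ fun t : ℝ => a * exp (t • V') * b) = fun _ => (0 : ℝ) := by
    funext t; exact h t
  rw [h5] at h4
  exact h4.unique (hasDerivAt_const _ _)

end H9

/-- the big cell -/
def WeightData.Cel (W : WeightData A ι) (G : Subgroup (Op N)ˣ) : Set (Op N) :=
  {T | ∃ y ∈ G, ∃ l ∈ G, ∃ x ∈ G, Unip W.P (W.r G) (y : Op N) ∧ Diag W.P (l : Op N) ∧
    Unip W.P (fun i j => W.r G j i) (x : Op N) ∧ T = y * l * x}

theorem WeightData.one_mem_Cel (W : WeightData A ι) : (1 : Op N) ∈ W.Cel G :=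
  ⟨1, G.one_mem, 1, G.one_mem, 1, G.one_mem, Unip.one W.grading, Diag.one, Unip.one W.grading,
    by simp⟩

theorem WeightData.cel_deriv (W : WeightData A ι) (hG : IsConnectedSemisimple G)
    (hA : IsCartan G A) {F : Op N → ℝ} (hF : F ∈ PolyFun (Op N))
    (h : ∀ T ∈ W.Cel G, F T = 0) {Z : Op N} (hZ : Z ∈ lieAlg G) :
    ∀ T ∈ W.Cel G, fderiv ℝ F T (T * Z) = 0 := by
  classical
  rintro T ⟨y, hy, l, hl, x, hx, hyu, hld, hxu, rfl⟩
  set U : Op N := (x : Op N) * Z * ((x⁻¹ : (Op N)ˣ) : Op N) with hU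
  have hUm : U ∈ lieAlg G := lieAlg_conj hx hZ
  have key : ∀ (p : ℝ → Prop) [DecidablePred p],
      (∑ i, ∑ j, (if p (W.m W.H0 i - W.m W.H0 j) then W.P i * U * W.P j else 0)) ∈ lieAlg G :=
    fun p _ => W.component_mem hG hA hUm p
  set Um : Op N := ∑ i, ∑ j, (if W.m W.H0 i - W.m W.H0 j < 0 then W.P i * U * W.P j else 0)
    with hUm'
  set U0 : Op N := ∑ i, ∑ j, (if W.m W.H0 i - W.m W.H0 j = 0 then W.P i * U * W.P j else 0)
    with hU0'
  set Up : Op N := ∑ i, ∑ j, (if 0 < W.m W.H0 i - W.m W.H0 j then W.P i * U * W.P j else 0)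
    with hUp'
  have hsum : U = Um + U0 + Up := by
    rw [hUm', hU0', hUp', ← Finset.sum_add_distrib, ← Finset.sum_add_distrib]
    conv_lhs => rw [W.sum_blocks U]
    refine Finset.sum_congr rfl fun i _ => ?_
    rw [← Finset.sum_add_distrib, ← Finset.sum_add_distrib]
    refine Finset.sum_congr rfl fun j _ => ?_
    rcases lt_trichotomy (W.m W.H0 i - W.m W.H0 j) 0 with h1 | h1 | h1
    · rw [if_pos h1, if_neg h1.ne, if_neg (not_lt.2 h1.le), add_zero, add_zero]
    · rw [if_neg (by rw [h1]; exact lt_irrefl _), if_pos h1, if_neg (by rw [h1]; exact lt_irrefl _),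
        add_zero, zero_add]
    · rw [if_neg (not_lt.2 h1.le), if_neg h1.ne', if_pos h1, zero_add, zero_add]
  have hr1 : ∀ i j k, W.r G i j → W.r G j k → W.r G i k := fun _ _ _ => W.r_trans
  have hr2 : ∀ i, ¬ W.r G i i := fun i h => lt_irrefl _ (W.r_lt h)
  -- lowering part
  have e1 : fderiv ℝ F ((y : Op N) * (l * x)) (y * (l * Um * ((l⁻¹ : (Op N)ˣ) : Op N)) * (l * x))
      = 0 := by
    apply H9.fderiv_eq_zero hF
    intro t
    have h2 : (l : Op N) * Um * ((l⁻¹ : (Op N)ˣ) : Op N) ∈ lieAlg G :=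
      lieAlg_conj hl (key (fun x => x < 0))
    have h3 : Supp W.P (fun i j => i < j) ((l : Op N) * Um * ((l⁻¹ : (Op N)ˣ) : Op N)) := by
      intro i j hij
      have h4 : W.P i * ((l : Op N) * Um * ((l⁻¹ : (Op N)ˣ) : Op N)) * W.P j =
          (l : Op N) * (W.P i * Um * W.P j) * ((l⁻¹ : (Op N)ˣ) : Op N) := by
        calc W.P i * ((l : Op N) * Um * ((l⁻¹ : (Op N)ˣ) : Op N)) * W.P j
            = (W.P i * (l : Op N)) * Um * (((l⁻¹ : (Op N)ˣ) : Op N) * W.P j) := by
              simp only [mul_assoc]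
          _ = ((l : Op N) * W.P i) * Um * (W.P j * ((l⁻¹ : (Op N)ˣ) : Op N)) := by
              rw [hld i, hld.inv j]
          _ = _ := by simp only [mul_assoc]
      rw [h4, hUm', W.block_ite (fun x => x < 0), if_neg, mul_zero, zero_mul]
      intro h5
      exact hij (W.strictMono.lt_iff_lt.1 (by linarith))
    obtain ⟨g, hg, hge⟩ := h2 t
    have h5 : Unip W.P (W.r G) (g : Op N) := by
      rw [hge]
      refine W.exp_unip_lower hG (lieAlg_smul t h2) fun i j hij => ?_
      rw [mul_smul_comm, smul_mul_assoc, h3 i j hij]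
      exact smul_zero (A := Op N) t
    apply h
    refine ⟨y * g, G.mul_mem hy hg, l, hl, x, hx, ?_, hld, hxu, ?_⟩
    · rw [Units.val_mul]
      exact hyu.mul W.grading hr1 hr2 h5
    · rw [← hge, Units.val_mul]; simp only [mul_assoc]
  -- diagonal part
  have e2 : fderiv ℝ F ((y : Op N) * l * x) (y * l * U0 * x) = 0 := by
    apply H9.fderiv_eq_zero hF
    intro t
    have h2 : U0 ∈ lieAlg G := key (fun x => x = 0)
    obtain ⟨g, hg, hge⟩ := h2 t
    have h5 : Diag W.P (g : Op N) := by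
      rw [hge]
      have h6 : Diag W.P U0 := by
        have h7 : ∀ i j, i ≠ j → W.P i * U0 * W.P j = 0 := by
          intro i j hij
          rw [hU0', W.block_ite (fun x => x = 0), if_neg]
          intro h8
          exact hij (W.strictMono.injective (sub_eq_zero.1 h8))
        intro i
        calc W.P i * U0 = ∑ j, W.P i * U0 * W.P j := W.grading.mul_sum _
          _ = W.P i * U0 * W.P i := Finset.sum_eq_single i (fun j _ hj => h7 i j hj.symm)
              (fun h => absurd (Finset.mem_univ i) h)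
          _ = ∑ j, W.P j * U0 * W.P i := (Finset.sum_eq_single i (fun j _ hj => h7 j i hj)
              (fun h => absurd (Finset.mem_univ i) h)).symm
          _ = U0 * W.P i := by
              rw [← Finset.sum_mul, ← Finset.sum_mul, W.grading.sum_eq, one_mul]
      intro i
      have h8 : Commute (W.P i) (t • U0) := by
        change W.P i * (t • U0) = (t • U0) * W.P i
        rw [mul_smul_comm, smul_mul_assoc, h6 i]
      exact (h8.exp_right).eq
    apply h
    refine ⟨y, hy, l * g, G.mul_mem hl hg, x, hx, hyu, ?_, hxu, ?_⟩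
    · rw [Units.val_mul]; exact hld.mul h5
    · rw [← hge, Units.val_mul]; simp only [mul_assoc]
  -- raising part
  have e3 : fderiv ℝ F ((y : Op N) * l * x) (y * l * Up * x) = 0 := by
    apply H9.fderiv_eq_zero hF
    intro t
    have h2 : Up ∈ lieAlg G := key (fun x => 0 < x)
    have h3 : Supp W.P (fun i j => j < i) Up := by
      intro i j hij
      rw [hUp', W.block_ite (fun x => 0 < x), if_neg]
      intro h5
      exact hij (W.strictMono.lt_iff_lt.1 (by linarith))
    obtain ⟨g, hg, hge⟩ := h2 t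
    have h5 : Unip W.P (fun i j => W.r G j i) (g : Op N) := by
      rw [hge]
      refine W.exp_unip hG (lieAlg_smul t h2) fun i j hij => ?_
      rw [mul_smul_comm, smul_mul_assoc, h3 i j hij]
      exact smul_zero (A := Op N) t
    apply h
    refine ⟨y, hy, l, hl, g * x, G.mul_mem hg hx, hyu, hld, ?_, ?_⟩
    · rw [Units.val_mul]
      exact h5.mul W.grading (fun i j k h1 h2 => hr1 k j i h2 h1) hr2 hxu
    · rw [← hge, Units.val_mul]; simp only [mul_assoc]
  have e4 : (y : Op N) * l * x * Z = y * (l * Um * ((l⁻¹ : (Op N)ˣ) : Op N)) * (l * x) +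
      y * l * U0 * x + y * l * Up * x := by
    have h2 : (x : Op N) * Z = U * x := by
      rw [hU]
      simp only [mul_assoc]
      rw [Units.inv_mul, mul_one]
    calc (y : Op N) * l * x * Z = (y : Op N) * l * (x * Z) := by simp only [mul_assoc]
      _ = (y : Op N) * l * ((Um + U0 + Up) * x) := by rw [h2, ← hsum]
      _ = y * l * Um * x + y * l * U0 * x + y * l * Up * x := by
          simp only [add_mul, mul_add, mul_assoc]
      _ = _ := by
          congr 2
          calc (y : Op N) * l * Um * x = y * l * Um * ((((l⁻¹ : (Op N)ˣ) : Op N) * l) * x) := by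
                rw [Units.inv_mul, one_mul]
            _ = _ := by simp only [mul_assoc]
  rw [e4, map_add, map_add, e2, e3, add_zero, add_zero]
  rw [← mul_assoc] at e1
  exact e1

/-- polynomials vanishing on `N⁻ L N⁺` vanish on `G` -/
theorem WeightData.omega_dense (W : WeightData A ι) (hG : IsConnectedSemisimple G)
    (hA : IsCartan G A) {F : Op N → ℝ} (hF : F ∈ PolyFun (Op N))
    (h : ∀ y ∈ G, ∀ l ∈ G, ∀ x ∈ G, Unip W.P (W.r G) (y : Op N) → Diag W.P (l : Op N) →
      Unip W.P (fun i j => W.r G j i) (x : Op N) → F (y * l * x) = 0) :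
    ∀ g ∈ G, F (g : Op N) = 0 := by
  let I : Set (Op N → ℝ) := {F | F ∈ PolyFun (Op N) ∧ ∀ T ∈ W.Cel G, F T = 0}
  have hFI : F ∈ I := by
    refine ⟨hF, ?_⟩
    rintro T ⟨y, hy, l, hl, x, hx, h1, h2, h3, rfl⟩
    exact h y hy l hl x hx h1 h2 h3
  have key : ∀ L : List (Op N), (∀ Z ∈ L, Z ∈ lieAlg G) → ∀ F ∈ I,
      F ((L.map exp).prod) = 0 := by
    intro L
    induction L using List.reverseRecOn with
    | nil =>
      intro _ F hF
      simpa using hF.2 1 W.one_mem_Cel
    | append_singleton L Z ih =>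
      intro hL F hF
      have hLm : ∀ Z ∈ L, Z ∈ lieAlg G := fun Z hZ => hL Z (by simp [hZ])
      have hZm : Z ∈ lieAlg G := hL Z (by simp)
      have h1 := PolyFun.exp_eq_zero (I := I) (S := {(L.map exp).prod}) (Z := Z)
        (fun F hF => hF.1)
        (fun F hF => ⟨PolyFun.deriv_mem hF.1 Z, W.cel_deriv hG hA hF.1 hF.2 hZm⟩)
        (by
          rintro F hF s rfl
          exact ih hLm F hF) F hF _ rfl 1
      simpa using h1
  obtain ⟨p, hp⟩ := exists_polyVal hF
  intro g hg
  rw [hp]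
  refine hG.connected p (fun L hL => ?_) g hg
  rw [← hp]
  exact key L hL F hFI

end Pool.Agent.Lib.MP_d9b062_al
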