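import Pool.Agent.Lib.MP_d9b062_al_h9.Mos2
import Pool.Agent.Lib.MP_d9b062_al.Interface

/-!
# Task MOS3: Mostow's theorem
-/

namespace Pool.Agent.Lib.MP_d9b062_al

open NormedSpace Filter
open scoped Topology

/-- polynomial maps are smooth -/
theorem IsPolyMap.contDiff {E F : Type*} [NormedAddCommGroup E] [NormedSpace ℝ E]
    [FiniteDimensional ℝ E] [NormedAddCommGroup F] [NormedSpace ℝ F] [FiniteDimensional ℝ F]
    {f : E → F} (hf : IsPolyMap f) {n : WithTop ℕ∞} : ContDiff ℝ n f := by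
  let b := Module.finBasis ℝ F
  have h : f = fun x => ∑ i, b.coord i (f x) • b i := by
    funext x
    conv_lhs => rw [← b.sum_repr (f x)]
    rfl
  rw [h]
  exact ContDiff.sum fun i _ => (PolyFun.contDiff (hf (b.coord i))).smul contDiff_const

/-- Mostow's theorem, with a given space of commuting symmetric operators kept symmetric. -/
theorem exists_selfadjoint_conj {N m : ℕ} (hN : 0 < N) {G : Subgroup (Op N)ˣ}
    (hirr : ∀ W : Submodule ℝ (V N), (∀ g ∈ G, ∀ v ∈ W, (g : Op N) v ∈ W) → W = ⊥ ∨ W = ⊤)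
    (hdet : ∀ g ∈ G, LinearMap.det ((g : Op N) : V N →ₗ[ℝ] V N) = 1)
    (R : Op N →* Op m) (hstar : ∀ T, R (star T) = star (R T))
    (hR : IsPolyMap (R : Op N → Op m)) (w : V m)
    (hw : ∀ g ∈ G, R (g : Op N) w = w)
    (hG : ∀ g : (Op N)ˣ, R (g : Op N) w = w → g ∈ G)
    (A : Submodule ℝ (Op N)) (hAG : ∀ X ∈ A, X ∈ lieAlg G) (hAs : ∀ X ∈ A, star X = X) :
    ∃ g₀ : (Op N)ˣ, (∀ X ∈ A, (g₀ : Op N) * X = X * (g₀ : Op N)) ∧
      ∀ g ∈ G, g₀⁻¹ * star (g₀ * g * g₀⁻¹) * g₀ ∈ G := by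
  have : Nontrivial (V N) := by
    apply Module.nontrivial_of_finrank_pos (R := ℝ)
    rw [finrank_euclideanSpace_fin]; exact hN
  have hc : ContDiff ℝ 1 (R : Op N → Op m) := IsPolyMap.contDiff hR
  exact H9.mostow w hirr hdet hstar hc.continuous
    ((hc.differentiable (by norm_num)).differentiableAt) hw hG (A : Set (Op N)) hAG hAs

end Pool.Agent.Lib.MP_d9b062_al
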