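import Pool.Agent.Lib.MP_d9b062_al_h64.Polar
import Pool.Agent.Lib.MP_d9b062_al.Defs2

/-!
# Simultaneous diagonalization over `ℝ`
-/

namespace Pool.Agent.Lib.MP_d9b062_al

open NormedSpace Module

/-- for a diagonalizable operator, generalized eigenvectors are eigenvectors -/
theorem IsHyperbolic.eigen {N : ℕ} {X : Op N} (hX : IsHyperbolic X) {μ : ℝ} {v : V N}
    (hv : v ∈ Module.End.maxGenEigenspace (X : V N →ₗ[ℝ] V N) μ) : X v = μ • v := by
  obtain ⟨b, hb⟩ := hX
  choose a ha using hb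
  rw [Module.End.mem_maxGenEigenspace] at hv
  obtain ⟨k, hk⟩ := hv
  set T : V N →ₗ[ℝ] V N := (X : V N →ₗ[ℝ] V N) - μ • 1 with hT
  have hTb : ∀ i, T (b i) = (a i - μ) • b i := by
    intro i
    have h1 : T (b i) = X (b i) - μ • b i := rfl
    rw [h1, ha, sub_smul]
  have hTk : ∀ (k : ℕ) i, (T ^ k) (b i) = (a i - μ) ^ k • b i := by
    intro k i
    induction k with
    | zero => simp
    | succ k ih =>
      rw [pow_succ, Module.End.mul_apply, hTb, map_smul, ih, smul_smul, pow_succ, mul_comm]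
  have h1 : ∀ i, b.repr v i * (a i - μ) ^ k = 0 := by
    have h2 : (T ^ k) v = ∑ i, (b.repr v i * (a i - μ) ^ k) • b i := by
      conv_lhs => rw [← b.sum_repr v]
      rw [map_sum]
      refine Finset.sum_congr rfl fun i _ => ?_
      rw [map_smul, hTk, smul_smul]
    rw [h2] at hk
    have h3 := Fintype.linearIndependent_iff.1 b.linearIndependent _ hk
    exact h3
  have h2 : X v - μ • v = 0 := by
    have h3 : T v = ∑ i, (b.repr v i * (a i - μ)) • b i := by
      conv_lhs => rw [← b.sum_repr v]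
      rw [map_sum]
      refine Finset.sum_congr rfl fun i _ => ?_
      rw [map_smul, hTb, smul_smul]
    have h4 : T v = X v - μ • v := rfl
    rw [← h4, h3]
    refine Finset.sum_eq_zero fun i _ => ?_
    rcases mul_eq_zero.1 (h1 i) with h5 | h5
    · rw [h5, zero_mul, zero_smul]
    · have h6 : a i - μ = 0 := by
        by_contra h7
        exact pow_ne_zero k h7 h5
      rw [h6, mul_zero, zero_smul]
  exact sub_eq_zero.1 h2

/-- simultaneous diagonalization over `ℝ` -/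
theorem exists_joint_basis {N : ℕ} (A : Submodule ℝ (Op N)) (hA : ∀ X ∈ A, IsHyperbolic X)
    (hAc : ∀ X ∈ A, ∀ Y ∈ A, X * Y = Y * X) :
    ∃ b : Basis (Fin N) ℝ (V N), ∀ X ∈ A, ∀ i, ∃ a : ℝ, X (b i) = a • b i := by
  have htop : ∀ X : A, ⨆ μ, Module.End.maxGenEigenspace ((X : Op N) : V N →ₗ[ℝ] V N) μ = ⊤ := by
    intro X
    obtain ⟨b, hb⟩ := hA X X.2
    rw [eq_top_iff, ← b.span_eq, Submodule.span_le]
    rintro _ ⟨i, rfl⟩
    obtain ⟨a, ha⟩ := hb i
    refine Submodule.mem_iSup_of_mem a ?_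
    rw [Module.End.mem_maxGenEigenspace]
    refine ⟨1, ?_⟩
    rw [pow_one]
    have h1 : (((X : Op N) : V N →ₗ[ℝ] V N) - a • 1) (b i) = (X : Op N) (b i) - a • b i := rfl
    rw [h1, ha, sub_self]
  have h1 := Module.End.iSup_iInf_maxGenEigenspace_eq_top_of_iSup_maxGenEigenspace_eq_top_of_commute
    (fun X : A => (((X : Op N) : V N →ₗ[ℝ] V N) : Module.End ℝ (V N))) (by
      intro X Y _
      show ((X : Op N) : V N →ₗ[ℝ] V N) * ((Y : Op N) : V N →ₗ[ℝ] V N) =
        ((Y : Op N) : V N →ₗ[ℝ] V N) * ((X : Op N) : V N →ₗ[ℝ] V N)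
      ext1 v
      exact congrArg (fun T : Op N => T v) (hAc X X.2 Y Y.2)) htop
  set S : Set (V N) := {v | ∀ X ∈ A, ∃ a : ℝ, X v = a • v} with hS
  have hspan : ⊤ ≤ Submodule.span ℝ S := by
    rw [← h1, iSup_le_iff]
    intro χ v hv
    apply Submodule.subset_span
    intro X hX
    refine ⟨χ ⟨X, hX⟩, ?_⟩
    have h2 := (Submodule.mem_iInf _).1 hv ⟨X, hX⟩
    exact (hA X hX).eigen h2
  let b' := Basis.ofSpan hspan
  have hb' : ∀ i, b' i ∈ S := fun i => Basis.ofSpan_subset hspan ⟨i, rfl⟩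
  let e := b'.indexEquiv (EuclideanSpace.basisFun (Fin N) ℝ).toBasis
  refine ⟨b'.reindex e, fun X hX i => ?_⟩
  rw [Basis.reindex_apply]
  exact hb' _ X hX

/-- simultaneous diagonalization over `ℝ` -/
theorem exists_symmetrizing {N : ℕ} (A : Submodule ℝ (Op N)) (hA : ∀ X ∈ A, IsHyperbolic X)
    (hAc : ∀ X ∈ A, ∀ Y ∈ A, X * Y = Y * X) :
    ∃ g : (Op N)ˣ, ∀ X ∈ A, star ((g : Op N) * X * ((g⁻¹ : (Op N)ˣ) : Op N)) =
      (g : Op N) * X * ((g⁻¹ : (Op N)ˣ) : Op N) := by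
  obtain ⟨b, hb⟩ := exists_joint_basis A hA hAc
  let o := EuclideanSpace.basisFun (Fin N) ℝ
  let e : V N ≃ₗ[ℝ] V N := b.equiv o.toBasis (Equiv.refl _)
  have he : ∀ i, e (b i) = o i := fun i => by
    have := b.equiv_apply i o.toBasis (Equiv.refl _)
    rw [Equiv.refl_apply, OrthonormalBasis.coe_toBasis] at this
    exact this
  have hes : ∀ i, e.symm (o i) = b i := fun i => by rw [← he, e.symm_apply_apply]
  let g : (Op N)ˣ :=
    ⟨LinearMap.toContinuousLinearMap (e : V N →ₗ[ℝ] V N),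
      LinearMap.toContinuousLinearMap (e.symm : V N →ₗ[ℝ] V N), by
        ext1 v; exact e.apply_symm_apply v, by
        ext1 v; exact e.symm_apply_apply v⟩
  refine ⟨g, fun X hX => ?_⟩
  choose a ha using hb X hX
  have h1 : (g : Op N) * X * ((g⁻¹ : (Op N)ˣ) : Op N) = H64.dg o a := by
    apply H64.dg_ext o
    intro j
    rw [H64.dg_basis]
    have h2 : ((g : Op N) * X * ((g⁻¹ : (Op N)ˣ) : Op N)) (o j) = e (X (e.symm (o j))) := rfl
    rw [h2, hes, ha, map_smul, he]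
  rw [h1, H64.dg_star]

end Pool.Agent.Lib.MP_d9b062_al
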