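import Pool.Agent.Lib.MP_d9b062_al_h9.Generic
import Pool.Agent.Lib.MP_d9b062_al_h64.Alg

/-!
# Task WEIGHTS
-/

namespace Pool.Agent.Lib.MP_d9b062_al

open NormedSpace Filter
open scoped Topology

variable {N : ℕ} {G : Subgroup (Op N)ˣ} {A : Submodule ℝ (Op N)}

section basic

variable {ι : Type} [Fintype ι] [LinearOrder ι] (W : WeightData A ι)

theorem WeightData.mul_P (X : A) (i : ι) : (X : Op N) * W.P i = W.m X i • W.P i := by
  classical
  conv_lhs => rw [W.eq_sum X]
  rw [Finset.sum_mul, Finset.sum_eq_single i]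
  · rw [smul_mul_assoc, W.grading.idem]
  · intro j _ hj
    rw [smul_mul_assoc, W.grading.orth j i hj, smul_zero]
  · intro h; exact absurd (Finset.mem_univ i) h

theorem WeightData.P_mul (X : A) (i : ι) : W.P i * (X : Op N) = W.m X i • W.P i := by
  classical
  conv_lhs => rw [W.eq_sum X]
  rw [Finset.mul_sum, Finset.sum_eq_single i]
  · rw [mul_smul_comm, W.grading.idem]
  · intro j _ hj
    rw [mul_smul_comm, W.grading.orth i j hj.symm, smul_zero]
  · intro h; exact absurd (Finset.mem_univ i) h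

/-- the blocks of a bracket -/
theorem WeightData.block_bracket (X : A) (Z : Op N) (i j : ι) :
    W.P i * ((X : Op N) * Z - Z * X) * W.P j = (W.m X i - W.m X j) • (W.P i * Z * W.P j) := by
  calc W.P i * ((X : Op N) * Z - Z * X) * W.P j
      = (W.P i * (X : Op N)) * Z * W.P j - W.P i * Z * ((X : Op N) * W.P j) := by
        simp only [mul_sub, sub_mul, mul_assoc]
    _ = _ := by
      rw [W.P_mul, W.mul_P]
      simp only [smul_mul_assoc, mul_smul_comm]
      exact (sub_smul _ _ _).symm

theorem WeightData.diag_of_H0 {T : Op N} (h : T * (W.H0 : Op N) = (W.H0 : Op N) * T) :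
    Diag W.P T := by
  classical
  have key : ∀ i j, i ≠ j → W.P i * T * W.P j = 0 := by
    intro i j hij
    have h1 := W.block_bracket W.H0 T i j
    rw [h, sub_self, mul_zero, zero_mul] at h1
    rcases H9.op_smul_eq_zero h1.symm with h2 | h2
    · exact absurd (W.strictMono.injective (sub_eq_zero.1 h2)) hij
    · exact h2
  intro i
  calc W.P i * T = ∑ j, W.P i * T * W.P j := W.grading.mul_sum _
    _ = W.P i * T * W.P i := Finset.sum_eq_single i (fun j _ hj => key i j hj.symm)
        (fun h => absurd (Finset.mem_univ i) h)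
    _ = ∑ j, W.P j * T * W.P i := (Finset.sum_eq_single i (fun j _ hj => key j i hj)
        (fun h => absurd (Finset.mem_univ i) h)).symm
    _ = T * W.P i := by
        rw [← Finset.sum_mul, ← Finset.sum_mul, W.grading.sum_eq, one_mul]

/-- elements commuting with `H0` commute with `A`; block diagonal elements -/
theorem WeightData.diag_iff (T : Op N) : Diag W.P T ↔ ∀ X ∈ A, T * X = X * T := by
  constructor
  · intro h X hX
    have hX' : X = ∑ i, W.m ⟨X, hX⟩ i • W.P i := W.eq_sum ⟨X, hX⟩
    rw [hX', Finset.mul_sum, Finset.sum_mul]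
    refine Finset.sum_congr rfl fun i _ => ?_
    rw [mul_smul_comm, smul_mul_assoc, h i]
  · intro h
    exact W.diag_of_H0 (h W.H0 W.H0.2)

theorem WeightData.pow_eq (c : ι → ℝ) (n : ℕ) : (∑ i, c i • W.P i) ^ n = ∑ i, c i ^ n • W.P i := by
  classical
  induction n with
  | zero => simp [W.grading.sum_eq]
  | succ n ih =>
    rw [pow_succ, ih, Finset.sum_mul]
    refine Finset.sum_congr rfl fun i _ => ?_
    rw [Finset.mul_sum, Finset.sum_eq_single i]
    · rw [smul_mul_smul_comm, W.grading.idem, pow_succ]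
    · intro j _ hj
      rw [smul_mul_smul_comm, W.grading.orth i j hj.symm, smul_zero]
    · intro h; exact absurd (Finset.mem_univ i) h

theorem WeightData.exp_sum (c : ι → ℝ) :
    exp (∑ i, c i • W.P i) = ∑ i, Real.exp (c i) • W.P i := by
  have h1 : HasSum (fun n : ℕ => ((n.factorial : ℝ)⁻¹) • (∑ i, c i • W.P i) ^ n)
      (exp (∑ i, c i • W.P i)) := NormedSpace.exp_series_hasSum_exp' (𝕂 := ℝ) _
  have h2 : HasSum (fun n : ℕ => ((n.factorial : ℝ)⁻¹) • (∑ i, c i • W.P i) ^ n)
      (∑ i, Real.exp (c i) • W.P i) := by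
    have h3 : ∀ n : ℕ, ((n.factorial : ℝ)⁻¹) • (∑ i, c i • W.P i) ^ n =
        ∑ i, (((n.factorial : ℝ)⁻¹) • (c i) ^ n) • W.P i := by
      intro n
      rw [W.pow_eq, Finset.smul_sum]
      refine Finset.sum_congr rfl fun i _ => ?_
      rw [smul_assoc]
    simp only [h3]
    refine hasSum_sum fun i _ => ?_
    refine HasSum.smul_const ?_ _
    rw [Real.exp_eq_exp_ℝ]
    exact NormedSpace.exp_series_hasSum_exp' (𝕂 := ℝ) _
  exact h1.unique h2

theorem WeightData.exp_eq (H : A) : exp (H : Op N) = ∑ i, Real.exp (W.m H i) • W.P i := by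
  conv_lhs => rw [W.eq_sum H]
  exact W.exp_sum _

theorem WeightData.r_lt {i j : ι} (h : W.r G i j) : i < j := by
  have := h W.H0 fun a b hab => W.strictMono hab.1
  exact W.strictMono.lt_iff_lt.1 this

theorem WeightData.r_trans {i j k : ι} (h : W.r G i j) (h' : W.r G j k) : W.r G i k :=
  fun H hH => (h H hH).trans (h' H hH)

theorem WeightData.Pos.r {W : WeightData A ι} {i j : ι} (h : W.Pos G i j) : W.r G i j :=
  fun _ hH => hH i j h

theorem WeightData.H0_mem : W.H0 ∈ W.Chamber G := fun _ _ h => (W.strictMono h.1).le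

theorem WeightData.chamber_le {H : A} (hH : H ∈ W.Chamber G) {i j : ι} (h : W.r G i j) :
    W.m H i ≤ W.m H j := by
  have h1 : ∀ ε : ℝ, 0 < ε → W.m H i + ε * W.m W.H0 i < W.m H j + ε * W.m W.H0 j := by
    intro ε hε
    have := h (H + ε • W.H0) fun a b hab => by
      have h2 := hH a b hab
      have h3 := mul_lt_mul_of_pos_left (W.strictMono hab.1) hε
      simp only [map_add, map_smul, Pi.add_apply, Pi.smul_apply, smul_eq_mul]
      linarith
    simpa only [map_add, map_smul, Pi.add_apply, Pi.smul_apply, smul_eq_mul] using this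
  have h2 : Tendsto (fun ε : ℝ => W.m H i + ε * W.m W.H0 i) (𝓝[>] 0) (𝓝 (W.m H i)) := by
    have : Continuous fun ε : ℝ => W.m H i + ε * W.m W.H0 i := by fun_prop
    have h3 := this.tendsto 0
    simp only [zero_mul, add_zero] at h3
    exact h3.mono_left nhdsWithin_le_nhds
  have h3 : Tendsto (fun ε : ℝ => W.m H j + ε * W.m W.H0 j) (𝓝[>] 0) (𝓝 (W.m H j)) := by
    have : Continuous fun ε : ℝ => W.m H j + ε * W.m W.H0 j := by fun_prop
    have h3 := this.tendsto 0
    simp only [zero_mul, add_zero] at h3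
    exact h3.mono_left nhdsWithin_le_nhds
  refine le_of_tendsto_of_tendsto h2 h3 ?_
  filter_upwards [self_mem_nhdsWithin] with ε hε using (h1 ε hε).le

/-- the sum of all blocks -/
theorem WeightData.sum_blocks (T : Op N) : T = ∑ i, ∑ j, W.P i * T * W.P j := by
  conv_lhs => rw [W.grading.sum_mul T]
  refine Finset.sum_congr rfl fun i _ => ?_
  exact W.grading.mul_sum _

theorem WeightData.exp_supp {s : ι → ι → Prop} (hs : ∀ i j k, s i j → s j k → s i k)
    (hi : ∀ i, ¬ s i i) {Z : Op N} (h : Supp W.P s Z) : Unip W.P s (exp Z) := by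
  have h1 : HasSum (fun n : ℕ => ((n.factorial : ℝ)⁻¹) • Z ^ n) (exp Z) :=
    NormedSpace.exp_series_hasSum_exp' (𝕂 := ℝ) _
  have hpow : ∀ k : ℕ, Supp W.P s (Z ^ (k + 1)) := by
    intro k
    induction k with
    | zero => simpa using h
    | succ k ih => rw [pow_succ]; exact ih.mul W.grading hs h
  have h2 : ∀ i j, HasSum (fun n : ℕ => W.P i * (((n.factorial : ℝ)⁻¹) • Z ^ n) * W.P j)
      (W.P i * exp Z * W.P j) := fun i j => (h1.mul_left _).mul_right _
  have h3 : ∀ i j, ¬ s i j → W.P i * exp Z * W.P j = W.P i * W.P j := by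
    intro i j hij
    have h4 := h2 i j
    have h5 : ∀ n ≠ 0, W.P i * (((n.factorial : ℝ)⁻¹) • Z ^ n) * W.P j = 0 := by
      intro n hn
      obtain ⟨k, rfl⟩ := Nat.exists_eq_succ_of_ne_zero hn
      rw [mul_smul_comm, smul_mul_assoc, Nat.succ_eq_add_one, hpow k i j hij]
      exact smul_zero _
    have h6 := h4.unique (hasSum_single 0 h5)
    rw [h6]
    simp only [Nat.factorial_zero, Nat.cast_one, inv_one, pow_zero]
    rw [one_smul, mul_one]
  exact ⟨fun i => by rw [h3 i i (hi i), W.grading.idem],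
    fun i j hij hn => by rw [h3 i j hn, W.grading.orth i j hij]⟩

theorem WeightData.supp_r {Z : Op N} (hZ : Z ∈ lieAlg G)
    (h : Supp W.P (fun i j => j < i) Z) : Supp W.P (fun i j => W.r G j i) Z := by
  intro i j hn
  by_cases hij : j < i
  · by_contra hne
    exact hn (WeightData.Pos.r ⟨hij, Z, hZ, hne⟩)
  · exact h i j hij

/-- for `Z` in the Lie algebra, with only raising components, `exp Z` is in `N⁺` -/
theorem WeightData.exp_unip (_hG : IsConnectedSemisimple G) {Z : Op N} (hZ : Z ∈ lieAlg G)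
    (h : Supp W.P (fun i j => j < i) Z) : Unip W.P (fun i j => W.r G j i) (exp Z) :=
  W.exp_supp (s := fun i j => W.r G j i) (fun _ _ _ h1 h2 => W.r_trans h2 h1)
    (fun _ h1 => lt_irrefl _ (W.r_lt h1)) (W.supp_r hZ h)

theorem WeightData.star_block (Z : Op N) (i j : ι) :
    star (W.P i * Z * W.P j) = W.P j * star Z * W.P i := by
  rw [star_mul, star_mul, W.star_P, W.star_P, mul_assoc]

/-- for `Z` in the Lie algebra, with only lowering components, `exp Z` is in `N⁻` -/
theorem WeightData.exp_unip_lower (hG : IsConnectedSemisimple G) {Z : Op N} (hZ : Z ∈ lieAlg G)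
    (h : Supp W.P (fun i j => i < j) Z) : Unip W.P (W.r G) (exp Z) := by
  refine W.exp_supp (s := W.r G) (fun _ _ _ h1 h2 => W.r_trans h1 h2)
    (fun _ h1 => lt_irrefl _ (W.r_lt h1)) ?_
  intro i j hn
  by_cases hij : i < j
  · by_contra hne
    refine hn (WeightData.Pos.r ⟨hij, star Z, lieAlg_star hG hZ, ?_⟩)
    rw [← W.star_block]
    exact fun h0 => hne (star_eq_zero.1 h0)
  · exact h i j hij

end basic

section lie

/-- the Lie algebra as a subspace -/
def lieSub (hG : IsConnectedSemisimple G) : Submodule ℝ (Op N) where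
  carrier := lieAlg G
  add_mem' := lieAlg_add hG
  zero_mem' := fun t => ⟨1, G.one_mem, by simp⟩
  smul_mem' := fun c _ hZ => lieAlg_smul c hZ

theorem mem_lieSub (hG : IsConnectedSemisimple G) {Z : Op N} :
    Z ∈ lieSub hG ↔ Z ∈ lieAlg G := Iff.rfl

/-- `ad X` -/
def adj (X : Op N) : Module.End ℝ (Op N) where
  toFun Z := X * Z - Z * X
  map_add' Y Z := by rw [mul_add, add_mul]; abel
  map_smul' c Z := by
    rw [mul_smul_comm, smul_mul_assoc]
    exact (smul_sub _ _ _).symm

variable {ι : Type} [Fintype ι] [LinearOrder ι] (W : WeightData A ι)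

theorem WeightData.block_aeval (q : Polynomial ℝ) (X : A) (Z : Op N) (i j : ι) :
    W.P i * (Polynomial.aeval (adj (X : Op N)) q Z) * W.P j =
      q.eval (W.m X i - W.m X j) • (W.P i * Z * W.P j) := by
  induction q using Polynomial.induction_on generalizing Z with
  | C a =>
    rw [Polynomial.aeval_C, Polynomial.eval_C]
    change W.P i * (a • Z) * W.P j = _
    rw [mul_smul_comm, smul_mul_assoc]
  | add p q hp hq =>
    rw [map_add, LinearMap.add_apply, mul_add, add_mul, hp, hq, Polynomial.eval_add]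
    exact (add_smul _ _ _).symm
  | monomial n a ih =>
    have h1 : Polynomial.aeval (adj (X : Op N)) (Polynomial.C a * Polynomial.X ^ (n + 1)) Z =
        Polynomial.aeval (adj (X : Op N)) (Polynomial.C a * Polynomial.X ^ n)
          (adj (X : Op N) Z) := by
      rw [pow_succ, ← mul_assoc, map_mul, Polynomial.aeval_X]
      rfl
    rw [h1, ih]
    change _ • (W.P i * ((X : Op N) * Z - Z * X) * W.P j) = _
    rw [W.block_bracket]
    simp only [Polynomial.eval_mul, Polynomial.eval_C, Polynomial.eval_pow, Polynomial.eval_X]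
    rw [pow_succ, ← mul_assoc]
    exact (mul_smul _ _ _).symm

theorem aeval_adj_mem (hG : IsConnectedSemisimple G) {X : Op N} (hX : X ∈ lieAlg G)
    (q : Polynomial ℝ) {Z : Op N} (hZ : Z ∈ lieAlg G) :
    Polynomial.aeval (adj X) q Z ∈ lieAlg G := by
  induction q using Polynomial.induction_on generalizing Z with
  | C a =>
    rw [Polynomial.aeval_C]
    exact lieAlg_smul a hZ
  | add p q hp hq =>
    rw [map_add, LinearMap.add_apply]
    exact lieAlg_add hG (hp hZ) (hq hZ)
  | monomial n a ih =>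
    have h1 : Polynomial.aeval (adj X) (Polynomial.C a * Polynomial.X ^ (n + 1)) Z =
        Polynomial.aeval (adj X) (Polynomial.C a * Polynomial.X ^ n) (adj X Z) := by
      rw [pow_succ, ← mul_assoc, map_mul, Polynomial.aeval_X]
      rfl
    rw [h1]
    exact ih (lieAlg_bracket hG hX hZ)

/-- the components of an element of the Lie algebra under a union of eigenspaces of `ad H0` -/
theorem WeightData.component_mem (hG : IsConnectedSemisimple G) (hA : IsCartan G A)
    {Z : Op N} (hZ : Z ∈ lieAlg G) (p : ℝ → Prop) [DecidablePred p] :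
    ∑ i, ∑ j, (if p (W.m W.H0 i - W.m W.H0 j) then W.P i * Z * W.P j else 0) ∈ lieAlg G := by
  classical
  let s : Finset ℝ := Finset.image (fun ij : ι × ι => W.m W.H0 ij.1 - W.m W.H0 ij.2) Finset.univ
  let q : Polynomial ℝ := Lagrange.interpolate s id fun x => if p x then 1 else 0
  have hq : ∀ i j, q.eval (W.m W.H0 i - W.m W.H0 j) =
      if p (W.m W.H0 i - W.m W.H0 j) then 1 else 0 := by
    intro i j
    have hmem : W.m W.H0 i - W.m W.H0 j ∈ s :=
      Finset.mem_image.2 ⟨(i, j), Finset.mem_univ _, rfl⟩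
    exact Lagrange.eval_interpolate_at_node (v := id) (fun x => if p x then (1 : ℝ) else 0)
      (Function.injective_id.injOn) hmem
  have h1 : ∑ i, ∑ j, (if p (W.m W.H0 i - W.m W.H0 j) then W.P i * Z * W.P j else 0) =
      Polynomial.aeval (adj (W.H0 : Op N)) q Z := by
    rw [W.sum_blocks (Polynomial.aeval (adj (W.H0 : Op N)) q Z)]
    refine Finset.sum_congr rfl fun i _ => Finset.sum_congr rfl fun j _ => ?_
    rw [W.block_aeval, hq]
    split
    · exact (one_smul ℝ (W.P i * Z * W.P j)).symm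
    · exact (zero_smul ℝ (W.P i * Z * W.P j)).symm
  rw [h1]
  exact aeval_adj_mem hG (hA.mem_lieAlg _ W.H0.2) q hZ

theorem WeightData.block_sum (f : ι → ι → Op N) (i j : ι) :
    W.P i * (∑ a, ∑ b, W.P a * f a b * W.P b) * W.P j = W.P i * f i j * W.P j := by
  classical
  rw [Finset.mul_sum, Finset.sum_mul, Finset.sum_eq_single i]
  · rw [Finset.mul_sum, Finset.sum_mul, Finset.sum_eq_single j]
    · calc W.P i * (W.P i * f i j * W.P j) * W.P j
          = (W.P i * W.P i) * f i j * (W.P j * W.P j) := by simp only [mul_assoc]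
        _ = _ := by rw [W.grading.idem, W.grading.idem]
    · intro b _ hb
      calc W.P i * (W.P i * f i b * W.P b) * W.P j
          = W.P i * (W.P i * f i b) * (W.P b * W.P j) := by simp only [mul_assoc]
        _ = 0 := by rw [W.grading.orth b j hb, mul_zero]
    · intro h; exact absurd (Finset.mem_univ j) h
  · intro a _ ha
    rw [Finset.mul_sum, Finset.sum_mul]
    refine Finset.sum_eq_zero fun b _ => ?_
    calc W.P i * (W.P a * f a b * W.P b) * W.P j
        = (W.P i * W.P a) * f a b * W.P b * W.P j := by simp only [mul_assoc]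
      _ = 0 := by rw [W.grading.orth i a ha.symm]; simp only [zero_mul]
  · intro h; exact absurd (Finset.mem_univ i) h

theorem WeightData.block_ite (p : ℝ → Prop) [DecidablePred p] (Z : Op N) (i j : ι) :
    W.P i * (∑ a, ∑ b, (if p (W.m W.H0 a - W.m W.H0 b) then W.P a * Z * W.P b else 0)) * W.P j =
      if p (W.m W.H0 i - W.m W.H0 j) then W.P i * Z * W.P j else 0 := by
  have h1 : ∀ a b, (if p (W.m W.H0 a - W.m W.H0 b) then W.P a * Z * W.P b else 0) =
      W.P a * (if p (W.m W.H0 a - W.m W.H0 b) then Z else 0) * W.P b := by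
    intro a b
    split <;> simp
  simp only [h1]
  rw [W.block_sum fun a b => if p (W.m W.H0 a - W.m W.H0 b) then Z else 0]

theorem WeightData.pow_deg {d : ℝ} {Z : Op N}
    (h : ∀ i j, W.m W.H0 i - W.m W.H0 j ≠ d → W.P i * Z * W.P j = 0) (k : ℕ) :
    ∀ i j, W.m W.H0 i - W.m W.H0 j ≠ k * d → W.P i * Z ^ k * W.P j = 0 := by
  induction k with
  | zero =>
    intro i j hij
    rw [pow_zero, mul_one]
    refine W.grading.orth i j fun e => hij ?_
    subst e; simp
  | succ k ih =>
    intro i j hij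
    rw [pow_succ, W.grading.block_mul]
    refine Finset.sum_eq_zero fun l _ => ?_
    by_cases h1 : W.m W.H0 i - W.m W.H0 l = k * d
    · have h2 : W.m W.H0 l - W.m W.H0 j ≠ d := by
        intro h2
        apply hij
        push_cast
        linarith
      rw [h l j h2, mul_zero]
    · rw [ih i l h1, zero_mul]

theorem WeightData.pos_root (hG : IsConnectedSemisimple G) (hA : IsCartan G A) {a b : ι}
    (h : W.Pos G a b) : ∃ x ∈ G, Unip W.P (fun i j => W.r G j i) (x : Op N) ∧
      W.P b * (x : Op N) * W.P a ≠ 0 := by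
  classical
  obtain ⟨hab, Z, hZ, hne⟩ := h
  set d : ℝ := W.m W.H0 b - W.m W.H0 a with hd
  have hd0 : 0 < d := sub_pos.2 (W.strictMono hab)
  set Z' : Op N := ∑ i, ∑ j, (if W.m W.H0 i - W.m W.H0 j = d then W.P i * Z * W.P j else 0)
    with hZ'
  have hmem : Z' ∈ lieAlg G := W.component_mem hG hA hZ fun x => x = d
  have hblock : ∀ i j, W.P i * Z' * W.P j =
      if W.m W.H0 i - W.m W.H0 j = d then W.P i * Z * W.P j else 0 :=
    W.block_ite (fun x => x = d) Z
  have hsupp : Supp W.P (fun i j => j < i) Z' := by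
    intro i j hij
    rw [hblock, if_neg]
    intro h1
    apply hij
    apply W.strictMono.lt_iff_lt.1
    linarith
  obtain ⟨x, hx, hxe⟩ := hmem 1
  rw [one_smul] at hxe
  refine ⟨x, hx, ?_, ?_⟩
  · rw [hxe]; exact W.exp_unip hG hmem hsupp
  · have h1 : HasSum (fun n : ℕ => ((n.factorial : ℝ)⁻¹) • Z' ^ n) (exp Z') :=
      NormedSpace.exp_series_hasSum_exp' (𝕂 := ℝ) _
    have h2 : HasSum (fun n : ℕ => W.P b * (((n.factorial : ℝ)⁻¹) • Z' ^ n) * W.P a)
      (W.P b * exp Z' * W.P a) := (h1.mul_left _).mul_right _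
    have h5 : ∀ n ≠ 1, W.P b * (((n.factorial : ℝ)⁻¹) • Z' ^ n) * W.P a = 0 := by
      intro n hn
      rw [mul_smul_comm, smul_mul_assoc, W.pow_deg (d := d) (fun i j hij => by
        rw [hblock, if_neg hij]) n b a]
      · exact smul_zero (A := Op N) ((n.factorial : ℝ)⁻¹)
      · rw [← hd]
        intro h6
        have h7 : ((n : ℝ) - 1) * d = 0 := by linarith
        rcases mul_eq_zero.1 h7 with h8 | h8
        · apply hn
          have : (n : ℝ) = 1 := by linarith
          exact_mod_cast this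
        · exact hd0.ne' h8
    have h6 := h2.unique (hasSum_single 1 h5)
    rw [hxe, h6]
    simp only [Nat.factorial_one, Nat.cast_one, inv_one, pow_one]
    rw [one_smul, hblock, if_pos rfl]
    exact hne

theorem WeightData.chamber_root (hG : IsConnectedSemisimple G) (hA : IsCartan G A) :
    ∃ c > 0, ∀ H ∈ W.Chamber G, ∀ R : ℝ, 0 ≤ R →
    (∀ i j, i ≠ j → (∃ x ∈ G, Unip W.P (fun i j => W.r G j i) (x : Op N) ∧
      W.P j * (x : Op N) * W.P i ≠ 0) → R ≤ W.m H j - W.m H i) →
      ∀ i j, W.r G i j → c * R ≤ W.m H j - W.m H i := by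
  classical
  obtain ⟨M, hM0, hM⟩ : ∃ M > 0, ∀ i j, W.m W.H0 j - W.m W.H0 i ≤ M := by
    refine ⟨1 + ∑ i, ∑ j, |W.m W.H0 j - W.m W.H0 i|, ?_, fun i j => ?_⟩
    · have : 0 ≤ ∑ i, ∑ j, |W.m W.H0 j - W.m W.H0 i| :=
        Finset.sum_nonneg fun i _ => Finset.sum_nonneg fun j _ => abs_nonneg _
      linarith
    · have h1 : |W.m W.H0 j - W.m W.H0 i| ≤ ∑ j, |W.m W.H0 j - W.m W.H0 i| :=
        Finset.single_le_sum (f := fun j => |W.m W.H0 j - W.m W.H0 i|)
          (fun j _ => abs_nonneg _) (Finset.mem_univ j)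
      have h2 : ∑ j, |W.m W.H0 j - W.m W.H0 i| ≤ ∑ i, ∑ j, |W.m W.H0 j - W.m W.H0 i| :=
        Finset.single_le_sum (f := fun i => ∑ j, |W.m W.H0 j - W.m W.H0 i|)
          (fun i _ => Finset.sum_nonneg fun j _ => abs_nonneg _) (Finset.mem_univ i)
      have h3 := le_abs_self (W.m W.H0 j - W.m W.H0 i)
      linarith
  obtain ⟨δ, hδ0, hδ⟩ : ∃ δ > 0, ∀ i j, i < j → δ ≤ W.m W.H0 j - W.m W.H0 i := by
    by_cases hne : (Finset.univ.filter fun ij : ι × ι => ij.1 < ij.2).Nonempty
    · obtain ⟨p, hp, hmin⟩ := Finset.exists_min_image _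
        (fun ij : ι × ι => W.m W.H0 ij.2 - W.m W.H0 ij.1) hne
      refine ⟨W.m W.H0 p.2 - W.m W.H0 p.1, ?_, fun i j hij => ?_⟩
      · exact sub_pos.2 (W.strictMono (by simpa using hp))
      · exact hmin (i, j) (by simpa using hij)
    · refine ⟨1, one_pos, fun i j hij => ?_⟩
      exact absurd ⟨(i, j), by simpa using hij⟩ hne
  refine ⟨δ / M, by positivity, ?_⟩
  intro H _ R hR hroot i j hij
  have h1 : H + (-(R / M)) • W.H0 ∈ W.Chamber G := by
    intro a b hab
    have h2 := hroot a b hab.1.ne (W.pos_root hG hA hab)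
    have h3 : (R / M) * (W.m W.H0 b - W.m W.H0 a) ≤ R := by
      calc (R / M) * (W.m W.H0 b - W.m W.H0 a) ≤ (R / M) * M :=
            mul_le_mul_of_nonneg_left (hM a b) (by positivity)
        _ = R := by field_simp
    simp only [map_add, map_smul, Pi.add_apply, Pi.smul_apply, smul_eq_mul]
    linarith
  have h4 := W.chamber_le h1 hij
  simp only [map_add, map_smul, Pi.add_apply, Pi.smul_apply, smul_eq_mul] at h4
  have h5 : δ / M * R ≤ (R / M) * (W.m W.H0 j - W.m W.H0 i) := by
    calc δ / M * R = (R / M) * δ := by ring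
      _ ≤ _ := mul_le_mul_of_nonneg_left (hδ i j (W.r_lt hij)) (by positivity)
  linarith

end lie

theorem exists_weightData (hA : ∀ X ∈ A, star X = X) (hc : ∀ X ∈ A, ∀ Y ∈ A, X * Y = Y * X)
    (H : A) (_hH : IsRegular G A H) :
    ∃ (ι : Type) (_ : Fintype ι) (_ : LinearOrder ι) (W : WeightData A ι),
      ∀ α : A →ₗ[ℝ] ℝ, IsRoot G A α → 0 < α H → 0 < α W.H0 := by
  obtain ⟨ι, i1, i2, W, hW⟩ := H9.exists_weightData_aux hA hc H
  refine ⟨ι, i1, i2, W, ?_⟩
  rintro α ⟨_, Z, _, hZ0, hZ⟩ hpos
  obtain ⟨i, j, hij⟩ : ∃ i j, W.P i * Z * W.P j ≠ 0 := by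
    by_contra hcon
    push Not at hcon
    apply hZ0
    rw [W.sum_blocks Z]
    exact Finset.sum_eq_zero fun i _ => Finset.sum_eq_zero fun j _ => hcon i j
  have h1 : ∀ X : A, α X = W.m X i - W.m X j := by
    intro X
    have h2 := W.block_bracket X Z i j
    rw [hZ X, mul_smul_comm, smul_mul_assoc] at h2
    have h3 : (α X - (W.m X i - W.m X j)) • (W.P i * Z * W.P j) = 0 := by
      refine (sub_smul (α X) (W.m X i - W.m X j) (W.P i * Z * W.P j)).trans ?_
      rw [h2]
      exact sub_self _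
    rcases H9.op_smul_eq_zero h3 with h4 | h4
    · linarith
    · exact absurd h4 hij
  rw [h1] at hpos ⊢
  exact hW i j hpos

end Pool.Agent.Lib.MP_d9b062_al
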