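import Pool.Agent.Lib.MP_d9b062_al.Interface

/-!
# Weights of a space of commuting symmetric operators
-/

namespace Pool.Agent.Lib.MP_d9b062_al.H9

open Filter Module
open scoped Topology

instance instIST {N : ℕ} : IsScalarTower ℝ (Op N) (Op N) := ⟨fun _ _ _ => rfl⟩

instance instSCC {N : ℕ} : SMulCommClass ℝ (Op N) (Op N) := ⟨fun c x y => by
  ext v i
  simp⟩

theorem op_smul_eq_zero {N : ℕ} {c : ℝ} {x : Op N} (h : c • x = 0) : c = 0 ∨ x = 0 := by
  by_cases hc : c = 0
  · exact Or.inl hc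
  · right
    ext1 v
    have h2 : c • x v = 0 := congrArg (fun T : Op N => T v) h
    exact (smul_eq_zero.1 h2).resolve_left hc

/-- A generic element near `H` for finitely many functionals. -/
theorem exists_generic {W : Type*} [AddCommGroup W] [Module ℝ W] {D : Set (Dual ℝ W)}
    (hD : D.Finite) (H : W) :
    ∃ H0 : W, (∀ f ∈ D, f ≠ 0 → f H0 ≠ 0) ∧ ∀ f ∈ D, 0 < f H → 0 < f H0 := by
  have : Finite {f : Dual ℝ W // f ∈ D ∧ f ≠ 0} :=
    (hD.subset (fun f (h : f ∈ D ∧ f ≠ 0) => h.1)).to_subtype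
  obtain ⟨K, hK⟩ := Dual.exists_forall_ne_zero_of_forall_exists
    (fun f : {f : Dual ℝ W // f ∈ D ∧ f ≠ 0} => f.1) (fun f => by
      by_contra! hcon
      exact f.2.2 (LinearMap.ext hcon))
  have h1 : ∀ᶠ ε : ℝ in 𝓝[>] 0, ∀ f ∈ D, (f ≠ 0 → f (H + ε • K) ≠ 0) ∧
      (0 < f H → 0 < f (H + ε • K)) := by
    rw [eventually_all_finite hD]
    intro f hf
    have hcont : Continuous fun ε : ℝ => f (H + ε • K) := by
      simp only [map_add, map_smul, smul_eq_mul]
      fun_prop
    have hlim : Tendsto (fun ε : ℝ => f (H + ε • K)) (𝓝[>] 0) (𝓝 (f H)) := by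
      have := hcont.tendsto 0
      simp only [zero_smul, add_zero] at this
      exact this.mono_left nhdsWithin_le_nhds
    have hpos : 0 < f H → ∀ᶠ ε : ℝ in 𝓝[>] 0, 0 < f (H + ε • K) := fun h =>
      hlim.eventually_const_lt h
    by_cases h0 : f = 0
    · exact Eventually.of_forall fun ε => ⟨fun h => absurd h0 h, fun h => by simp [h0] at h⟩
    · have hne : ∀ᶠ ε : ℝ in 𝓝[>] 0, f (H + ε • K) ≠ 0 := by
        by_cases hH : f H = 0
        · filter_upwards [self_mem_nhdsWithin] with ε hε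
          have hε' : (0 : ℝ) < ε := hε
          simp only [map_add, map_smul, smul_eq_mul, hH, zero_add]
          exact mul_ne_zero hε'.ne' (hK ⟨f, hf, h0⟩)
        · exact hlim.eventually_ne hH
      by_cases hH : 0 < f H
      · filter_upwards [hne, hpos hH] with ε h1 h2 using ⟨fun _ => h1, fun _ => h2⟩
      · filter_upwards [hne] with ε h1 using ⟨fun _ => h1, fun h => absurd h hH⟩
  obtain ⟨ε, hε⟩ := h1.exists
  exact ⟨H + ε • K, fun f hf => (hε f hf).1, fun f hf => (hε f hf).2⟩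

variable {N : ℕ} {A : Submodule ℝ (Op N)}

/-- `l` is a weight. -/
def IsWt (A : Submodule ℝ (Op N)) (l : Dual ℝ A) : Prop :=
  ∃ v : V N, v ≠ 0 ∧ ∀ X : A, (X : Op N) v = l X • v

/-- the joint eigenspace -/
def wsp (A : Submodule ℝ (Op N)) (χ : A → ℝ) : Submodule ℝ (V N) :=
  ⨅ X : A, Module.End.eigenspace ((X : Op N) : V N →ₗ[ℝ] V N) (χ X)

theorem mem_wsp {χ : A → ℝ} {v : V N} : v ∈ wsp A χ ↔ ∀ X : A, (X : Op N) v = χ X • v := by
  simp [wsp, Submodule.mem_iInf]

theorem isSymmetric (hA : ∀ X ∈ A, star X = X) (X : A) :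
    (((X : Op N) : V N →ₗ[ℝ] V N)).IsSymmetric := by
  have h : IsSelfAdjoint (X : Op N) := hA X X.2
  exact h.isSymmetric

theorem iSup_wsp (hA : ∀ X ∈ A, star X = X) (hc : ∀ X ∈ A, ∀ Y ∈ A, X * Y = Y * X) :
    ⨆ χ : A → ℝ, wsp A χ = ⊤ := by
  refine LinearMap.IsSymmetric.iSup_iInf_eq_top_of_commute
    (T := fun X : A => ((X : Op N) : V N →ₗ[ℝ] V N)) (isSymmetric hA) ?_
  intro X Y _
  change (((X : Op N) : V N →ₗ[ℝ] V N)) * (((Y : Op N) : V N →ₗ[ℝ] V N)) = _
  refine LinearMap.ext fun v => ?_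
  exact congrFun (congrArg (fun T : Op N => ⇑T) (hc X X.2 Y Y.2)) v

theorem ortho (hA : ∀ X ∈ A, star X = X) {χ χ' : A → ℝ} (h : χ ≠ χ') : wsp A χ ⟂ wsp A χ' := by
  have h1 := LinearMap.IsSymmetric.orthogonalFamily_iInf_eigenspaces
    (T := fun X : A => ((X : Op N) : V N →ₗ[ℝ] V N)) (isSymmetric hA)
  exact h1.isOrtho h

theorem finite_ne (hA : ∀ X ∈ A, star X = X) : {χ : A → ℝ | wsp A χ ≠ ⊥}.Finite := by
  have h1 := (LinearMap.IsSymmetric.orthogonalFamily_iInf_eigenspaces
    (T := fun X : A => ((X : Op N) : V N →ₗ[ℝ] V N)) (isSymmetric hA)).independent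
  have h2 : iSupIndep fun χ : {χ : A → ℝ // wsp A χ ≠ ⊥} => wsp A χ.1 :=
    h1.comp Subtype.val_injective
  have := WellFoundedGT.finite_of_iSupIndep h2 fun χ => χ.2
  exact Set.finite_coe_iff.1 this

/-- nonzero joint eigenspaces belong to linear functionals -/
theorem exists_dual {χ : A → ℝ} (h : wsp A χ ≠ ⊥) : ∃ l : Dual ℝ A, (l : A → ℝ) = χ := by
  obtain ⟨v, hv, hv0⟩ := Submodule.exists_mem_ne_zero_of_ne_bot h
  rw [mem_wsp] at hv
  refine ⟨{ toFun := χ, map_add' := fun X Y => ?_, map_smul' := fun c X => ?_ }, rfl⟩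
  · have h1 : χ (X + Y) • v = (χ X + χ Y) • v := by
      rw [add_smul, ← hv, ← hv, ← hv]; rfl
    exact smul_left_injective ℝ hv0 h1
  · have h1 : χ (c • X) • v = (c * χ X) • v := by
      rw [mul_smul, ← hv, ← hv]; rfl
    exact smul_left_injective ℝ hv0 h1

/-- the set of weights, together with `0` -/
def wts (A : Submodule ℝ (Op N)) : Set (Dual ℝ A) :=
  {l | l = 0 ∨ wsp A l ≠ ⊥}

theorem wts_finite (hA : ∀ X ∈ A, star X = X) : (wts A).Finite := by
  have h1 : {l : Dual ℝ A | wsp A l ≠ ⊥}.Finite :=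
    Set.Finite.preimage (DFunLike.coe_injective.injOn) (finite_ne hA)
  have h2 : wts A = insert 0 {l : Dual ℝ A | wsp A l ≠ ⊥} := by
    ext l; simp [wts]
  rw [h2]
  exact h1.insert 0

theorem zero_mem_wts : (0 : Dual ℝ A) ∈ wts A := Or.inl rfl

/-- The weight data attached to a generic element. -/
theorem exists_weightData_aux (hA : ∀ X ∈ A, star X = X)
    (hc : ∀ X ∈ A, ∀ Y ∈ A, X * Y = Y * X) (H : A) :
    ∃ (ι : Type) (_ : Fintype ι) (_ : LinearOrder ι) (W : WeightData A ι),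
      ∀ i j, 0 < W.m H i - W.m H j → 0 < W.m W.H0 i - W.m W.H0 j := by
  classical
  have hfin := wts_finite hA
  let D : Set (Dual ℝ A) := (fun a : Dual ℝ A × Dual ℝ A × Dual ℝ A × Dual ℝ A =>
    (a.1 - a.2.1) - (a.2.2.1 - a.2.2.2)) '' (wts A ×ˢ wts A ×ˢ wts A ×ˢ wts A)
  have hD : D.Finite := (hfin.prod (hfin.prod (hfin.prod hfin))).image _
  obtain ⟨H0, h1, h2⟩ := exists_generic hD H
  have hDm : ∀ a ∈ wts A, ∀ b ∈ wts A, ∀ c ∈ wts A, ∀ d ∈ wts A, (a - b) - (c - d) ∈ D :=
    fun a ha b hb c hc d hd => ⟨(a, b, c, d), ⟨ha, hb, hc, hd⟩, rfl⟩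
  have hinj : ∀ a ∈ wts A, ∀ b ∈ wts A, a H0 = b H0 → a = b := by
    intro a ha b hb hab
    by_contra hne
    have h3 := h1 _ (hDm a ha b hb 0 zero_mem_wts 0 zero_mem_wts) (by
      simpa [sub_eq_zero] using hne)
    exact h3 (by simp [hab])
  let S : Set ℝ := (fun l : Dual ℝ A => l H0) '' wts A
  have hS : S.Finite := hfin.image _
  have : Fintype S := hS.fintype
  have hl : ∀ x : S, ∃ l ∈ wts A, l H0 = x.1 := fun x => x.2
  choose l hlw hlx using hl
  have hll : ∀ a (ha : a ∈ wts A), l ⟨a H0, a, ha, rfl⟩ = a := fun a ha =>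
    hinj _ (hlw _) a ha (hlx _)
  have hne : ∀ x y : S, x ≠ y → (l x : A → ℝ) ≠ l y := by
    intro x y hxy h
    apply hxy
    apply Subtype.ext
    rw [← hlx x, ← hlx y, h]
  let P : S → Op N := fun x => (wsp A (l x)).starProjection
  have hPself : ∀ x v, v ∈ wsp A (l x) → P x v = v := fun x v hv =>
    Submodule.starProjection_eq_self_iff.2 hv
  have hPzero : ∀ x y v, x ≠ y → v ∈ wsp A (l y) → P x v = 0 := by
    intro x y v hxy hv
    rw [Submodule.starProjection_apply_eq_zero_iff]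
    exact (ortho hA (hne x y hxy)).symm hv
  -- every nonzero joint eigenspace is one of ours
  have hcase : ∀ χ : A → ℝ, ∀ v ∈ wsp A χ, v ≠ 0 → ∃ x : S, v ∈ wsp A (l x) := by
    intro χ v hv hv0
    obtain ⟨a, ha⟩ := exists_dual (A := A) (χ := χ) (fun h => hv0 (by
      rw [h, Submodule.mem_bot] at hv; exact hv))
    have haw : a ∈ wts A := Or.inr (by
      rw [ha]; intro h; rw [h, Submodule.mem_bot] at hv; exact hv0 hv)
    refine ⟨⟨a H0, a, haw, rfl⟩, ?_⟩
    rw [hll a haw, ha]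
    exact hv
  have hext : ∀ T T' : Op N, (∀ x : S, ∀ v ∈ wsp A (l x), T v = T' v) → T = T' := by
    intro T T' h
    ext1 v
    have hv : v ∈ ⨆ χ : A → ℝ, wsp A χ := by rw [iSup_wsp hA hc]; trivial
    induction hv using Submodule.iSup_induction' with
    | mem χ v hv =>
      by_cases hv0 : v = 0
      · simp [hv0]
      · obtain ⟨x, hx⟩ := hcase χ v hv hv0
        exact h x v hx
    | zero => simp
    | add v w _ _ hv hw => rw [map_add, map_add, hv, hw]
  have hsum : ∀ (c : S → ℝ) (x : S) (v : V N), v ∈ wsp A (l x) →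
      (∑ y, c y • P y) v = c x • v := by
    intro c x v hv
    rw [_root_.sum_apply, Finset.sum_eq_single x]
    · rw [_root_.smul_apply, hPself x v hv]
    · intro y _ hyx
      rw [_root_.smul_apply, hPzero y x v hyx hv, smul_zero]
    · intro h; exact absurd (Finset.mem_univ x) h
  let o : S := ⟨(0 : Dual ℝ A) H0, 0, zero_mem_wts, rfl⟩
  have hlo : l o = 0 := hll 0 zero_mem_wts
  refine ⟨S, inferInstance, inferInstance,
    { P := P
      o := o
      m := LinearMap.pi l
      H0 := H0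
      grading := ⟨fun x => Submodule.isIdempotentElem_starProjection _, fun x y hxy => ?_, ?_⟩
      star_P := fun x => isSelfAdjoint_starProjection _
      P_ne := ?_
      eq_sum := ?_
      m_o := ?_
      strictMono := ?_
      sep := ?_ }, ?_⟩
  · exact (ortho hA (hne x y hxy)).starProjection_comp_starProjection
  · refine hext _ _ fun x v hv => ?_
    have := hsum (fun _ => 1) x v hv
    simpa using this
  · intro i hi h0
    rcases hlw i with h | h
    · apply hi
      apply Subtype.ext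
      rw [← hlx i, h]
    · obtain ⟨v, hv, hv0⟩ := Submodule.exists_mem_ne_zero_of_ne_bot h
      have := hPself i v hv
      rw [h0] at this
      exact hv0 this.symm
  · intro X
    refine hext _ _ fun x v hv => ?_
    rw [hsum (fun y => LinearMap.pi l X y) x v hv]
    exact mem_wsp.1 hv X
  · intro X
    change l o X = 0
    rw [hlo]; rfl
  · intro x y hxy
    change l x H0 < l y H0
    rw [hlx, hlx]
    exact hxy
  · intro i j k m h X
    change l i H0 - l j H0 = l k H0 - l m H0 at h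
    change l i X - l j X = l k X - l m X
    by_contra hcon
    have h3 := h1 _ (hDm _ (hlw i) _ (hlw j) _ (hlw k) _ (hlw m)) (by
      intro h4
      apply hcon
      have := congrArg (fun f : Dual ℝ A => f X) h4
      simp only [LinearMap.sub_apply, LinearMap.zero_apply] at this
      linarith)
    apply h3
    simp only [LinearMap.sub_apply]
    linarith
  · intro i j hij
    have h3 := h2 _ (hDm _ (hlw i) _ (hlw j) 0 zero_mem_wts 0 zero_mem_wts) (by
      simpa using hij)
    simpa using h3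

end Pool.Agent.Lib.MP_d9b062_al.H9
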