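import Pool.Agent.Lib.MP_d9b062_al_h64.Basic
import Pool.Agent.Lib.MP_d9b062_al_h9.Generic

/-!
# A vector fixed by all block diagonal parts is fixed by `L`
-/

namespace Pool.Agent.Lib.MP_d9b062_al

open Filter
open scoped Topology

/-- rationality of the block diagonal part -/
theorem dD_rat {N : ℕ} {ι : Type} [Fintype ι] [LinearOrder ι] {P : ι → Op N}
    (hP : IsGrading P) (hs : ∀ i, star (P i) = P i) {D : Op N → ℝ} (hD : D ∈ PolyFun (Op N))
    {Q : Op N → Op N} (hQ : IsPolyMap Q) (hreg : ∀ T, Reg P T ↔ D T ≠ 0)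
    (hDs : ∀ T, D (star T) = D T) (hy : ∀ T, Reg P T → yL P T = (D T)⁻¹ • Q T) :
    ∃ (k : ℕ) (Q' : Op N → Op N), IsPolyMap Q' ∧
      ∀ T, Reg P T → (D T) ^ k • dD P T = Q' T := by
  classical
  set n := Fintype.card ι + 1 with hn
  -- inverse of a unipotent `D⁻¹ Q`
  have key : ∀ (d : ℝ) (S y : Op N), d ≠ 0 → y = d⁻¹ • S →
      d ^ n • unipInv ι y = ∑ k ∈ Finset.range n, d ^ (n - k) • (d • (1 : Op N) - S) ^ k := by
    intro d S y hd hyS
    rw [unipInv, ← hn, Finset.smul_sum]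
    refine Finset.sum_congr rfl fun k hk => ?_
    have hk' : k < n := Finset.mem_range.1 hk
    have h1 : d • (1 : Op N) - S = d • (1 - y) := by
      rw [smul_sub, hyS, smul_smul, mul_inv_cancel₀ hd, one_smul]
    rw [h1, smul_pow, smul_smul, ← pow_add, Nat.sub_add_cancel hk'.le]
  let st : Op N →ₗ[ℝ] Op N :=
    { toFun := fun T => star T
      map_add' := fun S T => star_add S T
      map_smul' := fun r T => by rw [star_smul]; simp }
  have hst : IsPolyMap (fun T : Op N => star T) := IsPolyMap.linear st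
  set Y1 : Op N → Op N := fun T =>
    ∑ k ∈ Finset.range n, (D T) ^ (n - k) • ((D T) • (1 : Op N) - Q T) ^ k with hY1
  set X1 : Op N → Op N := fun T =>
    ∑ k ∈ Finset.range n, (D T) ^ (n - k) • ((D T) • (1 : Op N) - star (Q (star T))) ^ k with hX1
  have hY1p : IsPolyMap Y1 := by
    refine IsPolyMap.sum _ fun k _ => IsPolyMap.smul (PolyFun.pow hD _) ?_
    exact ((IsPolyMap.smul hD (IsPolyMap.const _)).sub hQ).pow k
  have hX1p : IsPolyMap X1 := by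
    refine IsPolyMap.sum _ fun k _ => IsPolyMap.smul (PolyFun.pow hD _) ?_
    refine ((IsPolyMap.smul hD (IsPolyMap.const _)).sub ?_).pow k
    exact hst.comp (hQ.comp hst)
  refine ⟨n + n, fun T => Y1 T * T * X1 T, (hY1p.mul IsPolyMap.id).mul hX1p, ?_⟩
  intro T hT
  have hd : D T ≠ 0 := (hreg T).1 hT
  have hTs : Reg P (star T) := hT.star hs
  have hx : xU P T = (D T)⁻¹ • star (Q (star T)) := by
    rw [xU, hy _ hTs, hDs, star_smul]; simp
  have h1 : (D T) ^ n • Ring.inverse (yL P T) = Y1 T := by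
    rw [(yL_unip hP hT).inverse_eq hP lt_trans' (fun i => lt_irrefl i)]
    exact key _ _ _ hd (hy T hT)
  have h2 : (D T) ^ n • Ring.inverse (xU P T) = X1 T := by
    rw [(xU_unip hP hs hT).inverse_eq hP gt_trans' (fun i => lt_irrefl i)]
    exact key _ _ _ hd hx
  show (D T) ^ (n + n) • dD P T = Y1 T * T * X1 T
  rw [← h1, ← h2, dD, pow_add, smul_mul_assoc, smul_mul_smul_comm]

namespace Cell

variable {N : ℕ} {G : Subgroup (Op N)ˣ} {ι : Type} [Fintype ι] [LinearOrder ι] {c : Cell G ι}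

theorem Good.mem_EL_aux {Γ : Subgroup (Aff (V N))} (hΓ : c.Good Γ) {f : (Op N)ˣ} (hf : f ∈ G)
    {e : V N}
    (h : ∀ γ ∈ Γ, Reg c.P ((f⁻¹ * γ.lin * f : (Op N)ˣ) : Op N) →
      dD c.P ((f⁻¹ * γ.lin * f : (Op N)ˣ) : Op N) e = e)
    {D : Op N → ℝ} (hD : D ∈ PolyFun (Op N)) (hreg : ∀ T, Reg c.P T ↔ D T ≠ 0)
    {Q : Op N → Op N} (hQ : IsPolyMap Q) {k : ℕ}
    (hDQ : ∀ T, Reg c.P T → (D T) ^ k • dD c.P T = Q T) : e ∈ c.EL := by
  intro l hl
  -- the polynomial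
  have hpoly : ∀ φ : V N →ₗ[ℝ] ℝ,
      (fun T : Op N => D T * φ (Q T e - (D T) ^ k • e)) ∈ PolyFun (Op N) := by
    intro φ
    have h1 : IsPolyMap (fun T : Op N => Q T e - (D T) ^ k • e) :=
      (hQ.apply (IsPolyMap.const e)).sub (IsPolyMap.smul (PolyFun.pow hD k) (IsPolyMap.const e))
    exact PolyFun.mul hD (h1 φ)
  have hvan : ∀ φ : V N →ₗ[ℝ] ℝ, ∀ g ∈ G,
      D (g : Op N) * φ (Q (g : Op N) e - (D (g : Op N)) ^ k • e) = 0 := by
    intro φ g hg
    have hcj : IsPolyMap (fun T : Op N => ((f⁻¹ : (Op N)ˣ) : Op N) * T * (f : Op N)) :=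
      ((IsPolyMap.const _).mul IsPolyMap.id).mul (IsPolyMap.const _)
    have h1 := hΓ.dense _ (PolyFun.comp (hpoly φ) hcj) (by
      rintro s ⟨γ, hγ, rfl⟩
      have h2 : ((f⁻¹ : (Op N)ˣ) : Op N) * (γ.lin : Op N) * (f : Op N) =
          ((f⁻¹ * γ.lin * f : (Op N)ˣ) : Op N) := by
        rw [Units.val_mul, Units.val_mul]
      show D (((f⁻¹ : (Op N)ˣ) : Op N) * (γ.lin : Op N) * (f : Op N)) *
        φ (Q (((f⁻¹ : (Op N)ˣ) : Op N) * (γ.lin : Op N) * (f : Op N)) e -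
          (D (((f⁻¹ : (Op N)ˣ) : Op N) * (γ.lin : Op N) * (f : Op N))) ^ k • e) = 0
      rw [h2]
      by_cases hr : Reg c.P ((f⁻¹ * γ.lin * f : (Op N)ˣ) : Op N)
      · rw [← hDQ _ hr]
        have h3 : ((D ((f⁻¹ * γ.lin * f : (Op N)ˣ) : Op N)) ^ k •
            dD c.P ((f⁻¹ * γ.lin * f : (Op N)ˣ) : Op N)) e =
            (D ((f⁻¹ * γ.lin * f : (Op N)ˣ) : Op N)) ^ k •
              (dD c.P ((f⁻¹ * γ.lin * f : (Op N)ˣ) : Op N) e) := rfl
        rw [h3, h γ hγ hr, sub_self, map_zero, mul_zero]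
      · have h3 : D ((f⁻¹ * γ.lin * f : (Op N)ˣ) : Op N) = 0 := by
          by_contra h4
          exact hr ((hreg _).2 h4)
        rw [h3, zero_mul]) (f * g * f⁻¹) (G.mul_mem (G.mul_mem hf hg) (G.inv_mem hf))
    have h2 : ((f⁻¹ : (Op N)ˣ) : Op N) * ((f * g * f⁻¹ : (Op N)ˣ) : Op N) * (f : Op N) = g := by
      rw [← Units.val_mul, ← Units.val_mul]
      congr 1
      group
    simp only [h2] at h1
    exact h1
  have hlu := c.LU_val (y := 1) (d := l) (x := 1) c.Nm.one_mem hl c.Np.one_mem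
  rw [one_mul, mul_one] at hlu
  obtain ⟨hlr, -, hld, -⟩ := hlu
  have hDl : D (l : Op N) ≠ 0 := (hreg _).1 hlr
  have h1 : Q (l : Op N) e - (D (l : Op N)) ^ k • e = 0 := by
    by_contra hne
    obtain ⟨φ, hφ⟩ : ∃ φ : V N →ₗ[ℝ] ℝ, φ (Q (l : Op N) e - (D (l : Op N)) ^ k • e) ≠ 0 := by
      refine ⟨(innerSL ℝ (Q (l : Op N) e - (D (l : Op N)) ^ k • e) : V N →L[ℝ] ℝ), ?_⟩
      show inner ℝ (Q (l : Op N) e - (D (l : Op N)) ^ k • e)
        (Q (l : Op N) e - (D (l : Op N)) ^ k • e) ≠ 0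
      rw [inner_self_ne_zero]
      exact hne
    have := hvan φ l hl.1
    rcases mul_eq_zero.1 this with h2 | h2
    · exact hDl h2
    · exact hφ h2
  rw [← hDQ _ hlr, hld] at h1
  have h2 : ((D (l : Op N)) ^ k • (l : Op N)) e = (D (l : Op N)) ^ k • ((l : Op N) e) := rfl
  rw [h2, ← smul_sub] at h1
  rcases smul_eq_zero.1 h1 with h3 | h3
  · exact absurd h3 (pow_ne_zero _ hDl)
  · exact sub_eq_zero.1 h3

end Cell

end Pool.Agent.Lib.MP_d9b062_al
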