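import Pool.Agent.Lib.MP_d9b062_al_h64.Polar
import Pool.Agent.Lib.MP_d9b062_al.Poly

/-!
# Hilbert–Schmidt norm, diagonal one-parameter groups, midpoint convexity
-/

namespace Pool.Agent.Lib.MP_d9b062_al.H9

open NormedSpace Filter H64
open scoped Topology InnerProductSpace

set_option linter.unusedSectionVars false

section conv

lemma midpoint_deriv {f : ℝ → ℝ} {f' : ℝ} (hm : ∀ s t, f ((s + t) / 2) ≤ (f s + f t) / 2)
    (hd : HasDerivAt f f' 0) : f' ≤ f 1 - f 0 := by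
  have h1 : ∀ n : ℕ, f ((1 / 2 : ℝ) ^ n) - f 0 ≤ (1 / 2 : ℝ) ^ n * (f 1 - f 0) := by
    intro n
    induction n with
    | zero => simp
    | succ n ih =>
      have h2 := hm 0 ((1 / 2 : ℝ) ^ n)
      have h3 : (0 + (1 / 2 : ℝ) ^ n) / 2 = (1 / 2) ^ (n + 1) := by rw [pow_succ]; ring
      rw [h3] at h2
      have h4 : (1 / 2 : ℝ) ^ (n + 1) * (f 1 - f 0) = ((1 / 2 : ℝ) ^ n * (f 1 - f 0)) / 2 := by
        rw [pow_succ]; ring
      rw [h4]
      linarith
  have h4 := hd.tendsto_slope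
  have h5 : Tendsto (fun n : ℕ => (1 / 2 : ℝ) ^ n) atTop (𝓝[≠] 0) := by
    rw [tendsto_nhdsWithin_iff]
    refine ⟨tendsto_pow_atTop_nhds_zero_of_lt_one (by norm_num) (by norm_num), ?_⟩
    exact Eventually.of_forall fun n => by simp
  have h6 := h4.comp h5
  refine le_of_tendsto h6 (Eventually.of_forall fun n => ?_)
  have h7 : (0 : ℝ) < (1 / 2) ^ n := by positivity
  simp only [Function.comp, slope_def_field, sub_zero]
  rw [div_le_iff₀ h7]
  linarith [h1 n]

lemma midpoint_le {a : ℝ → ℝ} (hm : ∀ s t, a ((s + t) / 2) ≤ (a s + a t) / 2)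
    (h0 : a 0 ≤ a 1) (n : ℕ) : a (1 - (1 / 2 : ℝ) ^ n) ≤ a 1 := by
  induction n with
  | zero => simpa using h0
  | succ n ih =>
    have h2 := hm (1 - (1 / 2 : ℝ) ^ n) 1
    have h3 : (1 - (1 / 2 : ℝ) ^ n + 1) / 2 = 1 - (1 / 2) ^ (n + 1) := by rw [pow_succ]; ring
    rw [h3] at h2
    linarith

lemma deriv_nonpos_of_seq {β : ℝ → ℝ} {β' : ℝ} (hd : HasDerivAt β β' 1)
    (h : ∀ n : ℕ, β 1 ≤ β (1 - (1 / 2 : ℝ) ^ n)) : β' ≤ 0 := by
  have h4 := hd.tendsto_slope
  have h5 : Tendsto (fun n : ℕ => 1 - (1 / 2 : ℝ) ^ n) atTop (𝓝[≠] 1) := by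
    rw [tendsto_nhdsWithin_iff]
    constructor
    · have := (tendsto_const_nhds (x := (1 : ℝ)) (f := atTop)).sub
        (tendsto_pow_atTop_nhds_zero_of_lt_one (r := (1 / 2 : ℝ)) (by norm_num) (by norm_num))
      simpa using this
    · exact Eventually.of_forall fun n => by simp
  have h6 := h4.comp h5
  refine le_of_tendsto h6 (Eventually.of_forall fun n => ?_)
  have h7 : (0 : ℝ) < (1 / 2) ^ n := by positivity
  simp only [Function.comp, slope_def_field]
  have h8 : (1 - (1 / 2 : ℝ) ^ n - 1) = -(1 / 2) ^ n := by ring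
  rw [h8, div_neg, neg_nonpos]
  exact div_nonneg (by linarith [h n]) h7.le

end conv

variable {E : Type*} [NormedAddCommGroup E] [InnerProductSpace ℝ E] [CompleteSpace E]
  [FiniteDimensional ℝ E]

/-- the trace of an operator -/
noncomputable def tr (T : E →L[ℝ] E) : ℝ := LinearMap.trace ℝ E (T : E →ₗ[ℝ] E)

/-- square of the Hilbert–Schmidt norm -/
noncomputable def hs2 (T : E →L[ℝ] E) : ℝ := tr (star T * T)

lemma tr_mul_comm (S T : E →L[ℝ] E) : tr (S * T) = tr (T * S) :=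
  LinearMap.trace_mul_comm ℝ (S : E →ₗ[ℝ] E) (T : E →ₗ[ℝ] E)

lemma tr_add (S T : E →L[ℝ] E) : tr (S + T) = tr S + tr T := by
  unfold tr; rw [← map_add]; rfl

lemma tr_sub (S T : E →L[ℝ] E) : tr (S - T) = tr S - tr T := by
  unfold tr; rw [← map_sub]; rfl

lemma tr_smul (c : ℝ) (T : E →L[ℝ] E) : tr (c • T) = c * tr T := by
  unfold tr; rw [← smul_eq_mul, ← map_smul]; rfl

lemma tr_eq {κ : Type*} [Fintype κ] (b : OrthonormalBasis κ ℝ E) (T : E →L[ℝ] E) :
    tr T = ∑ i, ⟪b i, T (b i)⟫_ℝ := LinearMap.trace_eq_sum_inner _ b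

lemma star_inner (T : E →L[ℝ] E) (x y : E) : ⟪x, star T y⟫_ℝ = ⟪T x, y⟫_ℝ := by
  rw [ContinuousLinearMap.star_eq_adjoint, ContinuousLinearMap.adjoint_inner_right]

lemma star_inner' (T : E →L[ℝ] E) (x y : E) : ⟪star T x, y⟫_ℝ = ⟪x, T y⟫_ℝ := by
  rw [ContinuousLinearMap.star_eq_adjoint, ContinuousLinearMap.adjoint_inner_left]

lemma hs2_eq {κ : Type*} [Fintype κ] (b : OrthonormalBasis κ ℝ E) (T : E →L[ℝ] E) :
    hs2 T = ∑ i, ‖T (b i)‖ ^ 2 := by
  rw [hs2, tr_eq b]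
  refine Finset.sum_congr rfl fun i _ => ?_
  rw [opmul_apply, star_inner, real_inner_self_eq_norm_sq]

lemma hs2_star (T : E →L[ℝ] E) : hs2 (star T) = hs2 T := by
  rw [hs2, hs2, star_star, tr_mul_comm]

lemma hs2_isom_mul {k : E →L[ℝ] E} (hk : star k * k = 1) (T : E →L[ℝ] E) :
    hs2 (k * T) = hs2 T := by
  rw [hs2, hs2, star_mul, mul_assoc, ← mul_assoc (star k), hk, one_mul]

lemma hs2_nonneg (T : E →L[ℝ] E) : 0 ≤ hs2 T := by
  rw [hs2_eq (stdOrthonormalBasis ℝ E)]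
  positivity

lemma norm_sq_le_hs2 (T : E →L[ℝ] E) (v : E) : ‖T v‖ ^ 2 ≤ hs2 T * ‖v‖ ^ 2 := by
  let b := stdOrthonormalBasis ℝ E
  rw [← hs2_star, hs2_eq b, Finset.sum_mul, ← b.sum_sq_norm_inner_right (T v)]
  refine Finset.sum_le_sum fun i _ => ?_
  rw [← star_inner', ← mul_pow]
  exact pow_le_pow_left₀ (norm_nonneg _) (norm_inner_le_norm _ _) 2

lemma norm_le_sqrt_hs2 (T : E →L[ℝ] E) : ‖T‖ ≤ Real.sqrt (hs2 T) := by
  refine ContinuousLinearMap.opNorm_le_bound _ (Real.sqrt_nonneg _) fun v => ?_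
  refine le_of_sq_le_sq ?_ (by positivity)
  rw [mul_pow, Real.sq_sqrt (hs2_nonneg T)]
  exact norm_sq_le_hs2 T v

lemma hs2_mul_le (S T : E →L[ℝ] E) : hs2 (S * T) ≤ ‖S‖ ^ 2 * hs2 T := by
  let b := stdOrthonormalBasis ℝ E
  rw [hs2_eq b, hs2_eq b, Finset.mul_sum]
  refine Finset.sum_le_sum fun i _ => ?_
  rw [opmul_apply, ← mul_pow]
  exact pow_le_pow_left₀ (norm_nonneg _) (ContinuousLinearMap.le_opNorm _ _) 2

lemma hs2_mul_le' (S T : E →L[ℝ] E) : hs2 (S * T) ≤ ‖T‖ ^ 2 * hs2 S := by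
  rw [← hs2_star, star_mul, ← hs2_star S, ← norm_star T]
  exact hs2_mul_le _ _

lemma hs2_continuous : Continuous (hs2 : (E →L[ℝ] E) → ℝ) := by
  let b := stdOrthonormalBasis ℝ E
  have h : (hs2 : (E →L[ℝ] E) → ℝ) = fun T => ∑ i, ‖T (b i)‖ ^ 2 := by
    funext T; exact hs2_eq b T
  rw [h]
  refine continuous_finsetSum _ fun i _ => ?_
  exact ((ContinuousLinearMap.apply ℝ E (b i)).continuous.norm).pow 2

lemma hs2_eq_zero {T : E →L[ℝ] E} (h : hs2 T = 0) : T = 0 := by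
  have h1 := norm_le_sqrt_hs2 T
  rw [h, Real.sqrt_zero] at h1
  exact norm_le_zero_iff.1 h1

lemma hs2_smul (c : ℝ) (T : E →L[ℝ] E) : hs2 (c • T) = c ^ 2 * hs2 T := by
  let b := stdOrthonormalBasis ℝ E
  rw [hs2_eq b, hs2_eq b, Finset.mul_sum]
  refine Finset.sum_congr rfl fun i _ => ?_
  have : (c • T) (b i) = c • T (b i) := rfl
  rw [this, norm_smul, mul_pow, Real.norm_eq_abs, sq_abs]

/-! ### diagonal one-parameter groups -/

section diag

variable {κ : Type*} [Fintype κ] (b : OrthonormalBasis κ ℝ E) (a : κ → ℝ)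

/-- the one-parameter group generated by a diagonal operator -/
noncomputable def Pt (t : ℝ) : E →L[ℝ] E := dg b (fun i => Real.exp (t * a i))

lemma Pt_eq_exp (t : ℝ) : Pt b a t = exp (t • dg b a) := by
  rw [← dg_smul, dg_exp]; rfl

lemma Pt_zero : Pt b a 0 = 1 := by
  rw [← dg_one b, Pt]; congr 1; funext i; simp

lemma Pt_mul (s t : ℝ) : Pt b a s * Pt b a t = Pt b a (s + t) := by
  rw [Pt, Pt, dg_mul, Pt]; congr 1; funext i
  rw [Pi.mul_apply, ← Real.exp_add, add_mul]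

lemma Pt_star (t : ℝ) : star (Pt b a t) = Pt b a t := dg_star b _

lemma hasDerivAt_Pt : HasDerivAt (Pt b a) (dg b a) 0 := by
  have h1 : ∀ i ∈ Finset.univ, HasDerivAt
      (fun t : ℝ => Real.exp (t * a i) • (innerSL ℝ (b i)).smulRight (b i))
      (a i • (innerSL ℝ (b i)).smulRight (b i)) 0 := by
    intro i _
    have h2 : HasDerivAt (fun t : ℝ => Real.exp (t * a i)) (a i) 0 := by
      have := ((hasDerivAt_id (0 : ℝ)).mul_const (a i)).exp
      simpa using this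
    exact h2.smul_const ((innerSL ℝ (b i)).smulRight (b i) : E →L[ℝ] E)
  exact HasDerivAt.fun_sum h1

lemma det_dg (f : κ → ℝ) : LinearMap.det (dg b f : E →ₗ[ℝ] E) = ∏ i, f i := by
  classical
  rw [← LinearMap.det_toMatrix b.toBasis]
  have : LinearMap.toMatrix b.toBasis b.toBasis (dg b f : E →ₗ[ℝ] E) = Matrix.diagonal f := by
    ext i j
    rw [LinearMap.toMatrix_apply]
    have h1 : (dg b f : E →ₗ[ℝ] E) (b.toBasis j) = f j • b.toBasis j := by
      simpa using dg_basis b f j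
    rw [h1, map_smul, Finsupp.smul_apply, Module.Basis.repr_self, Finsupp.single_apply,
      Matrix.diagonal_apply]
    by_cases hij : j = i
    · subst hij; simp
    · rw [if_neg hij, if_neg (Ne.symm hij), smul_zero]
  rw [this, Matrix.det_diagonal]

lemma det_Pt (t : ℝ) : LinearMap.det (Pt b a t : E →ₗ[ℝ] E) = Real.exp (t * ∑ i, a i) := by
  rw [Pt, det_dg, ← Real.exp_sum, Finset.mul_sum]

lemma tr_dg (f : κ → ℝ) : tr (dg b f) = ∑ i, f i := by
  rw [tr_eq b]
  refine Finset.sum_congr rfl fun i _ => ?_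
  rw [dg_basis, inner_smul_right, real_inner_self_eq_norm_sq, b.norm_eq_one]; simp

lemma hs2_Pt_mul (t : ℝ) (g : E →L[ℝ] E) :
    hs2 (Pt b a t * g) = ∑ i, Real.exp (2 * t * a i) * ‖star g (b i)‖ ^ 2 := by
  rw [← hs2_star, star_mul, Pt_star, hs2_eq b]
  refine Finset.sum_congr rfl fun i _ => ?_
  rw [opmul_apply, Pt, dg_basis, map_smul, norm_smul, mul_pow, Real.norm_eq_abs,
    abs_of_pos (Real.exp_pos _), ← Real.exp_nat_mul]
  congr 2
  push_cast; ring

lemma tr_dg_mul (g : E →L[ℝ] E) :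
    tr (dg b a * (g * star g)) = ∑ i, a i * ‖star g (b i)‖ ^ 2 := by
  rw [tr_mul_comm, tr_eq b]
  refine Finset.sum_congr rfl fun i _ => ?_
  rw [opmul_apply, dg_basis, map_smul, inner_smul_right, opmul_apply, ← star_inner',
    real_inner_self_eq_norm_sq]

lemma hasDerivAt_hs2_Pt (t : ℝ) (g : E →L[ℝ] E) :
    HasDerivAt (fun t => hs2 (Pt b a t * g))
      (∑ i, 2 * a i * Real.exp (2 * t * a i) * ‖star g (b i)‖ ^ 2) t := by
  have h : (fun t => hs2 (Pt b a t * g)) =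
      fun t => ∑ i, Real.exp (2 * t * a i) * ‖star g (b i)‖ ^ 2 := by
    funext t; exact hs2_Pt_mul b a t g
  rw [h]
  have h1 : ∀ i ∈ Finset.univ, HasDerivAt (fun t => Real.exp (2 * t * a i) * ‖star g (b i)‖ ^ 2)
      (2 * a i * Real.exp (2 * t * a i) * ‖star g (b i)‖ ^ 2) t := by
    intro i _
    have h2 : HasDerivAt (fun t : ℝ => 2 * t * a i) (2 * a i) t := by
      have := ((hasDerivAt_id t).const_mul 2).mul_const (a i)
      simpa using this
    have h3 := (h2.exp).mul_const (‖star g (b i)‖ ^ 2)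
    have h4 : 2 * a i * Real.exp (2 * t * a i) * ‖star g (b i)‖ ^ 2 =
        Real.exp (2 * t * a i) * (2 * a i) * ‖star g (b i)‖ ^ 2 := by ring
    rw [h4]
    exact h3
  exact HasDerivAt.fun_sum h1

lemma hs2_Pt_midpoint (g : E →L[ℝ] E) (s t : ℝ) :
    hs2 (Pt b a ((s + t) / 2) * g) ≤ (hs2 (Pt b a s * g) + hs2 (Pt b a t * g)) / 2 := by
  rw [hs2_Pt_mul, hs2_Pt_mul, hs2_Pt_mul, ← Finset.sum_add_distrib, Finset.sum_div]
  refine Finset.sum_le_sum fun i _ => ?_
  have h1 : Real.exp (2 * ((s + t) / 2) * a i) = Real.exp (s * a i) * Real.exp (t * a i) := by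
    rw [← Real.exp_add]; congr 1; ring
  have h2 : ∀ s : ℝ, Real.exp (2 * s * a i) = Real.exp (s * a i) ^ 2 := by
    intro s; rw [← Real.exp_nat_mul]; congr 1; push_cast; ring
  rw [h1, h2, h2]
  nlinarith [mul_nonneg (sq_nonneg (Real.exp (s * a i) - Real.exp (t * a i)))
    (sq_nonneg ‖star g (b i)‖)]

end diag

/-- polar decomposition in `GL` -/
lemma polarGL (g : (E →L[ℝ] E)ˣ) :
    ∃ (b : OrthonormalBasis (Fin (Module.finrank ℝ E)) ℝ E) (a : Fin (Module.finrank ℝ E) → ℝ)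
      (k : E →L[ℝ] E), star k * k = 1 ∧ k * star k = 1 ∧ (g : E →L[ℝ] E) = k * Pt b a 1 := by
  set P : E →L[ℝ] E := star (g : E →L[ℝ] E) * g with hPdef
  have hsym : star P = P := by rw [hPdef, star_mul, star_star]
  have hs : LinearMap.IsSymmetric (P : E →ₗ[ℝ] E) := by
    rw [← ContinuousLinearMap.isSelfAdjoint_iff_isSymmetric]
    exact hsym
  have hpos : ∀ v : E, v ≠ 0 → 0 < ⟪P v, v⟫_ℝ := by
    intro v hv
    rw [hPdef, opmul_apply, star_inner', real_inner_self_eq_norm_sq]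
    have : (g : E →L[ℝ] E) v ≠ 0 := by
      intro h
      apply hv
      have h2 : ((g⁻¹ : (E →L[ℝ] E)ˣ) : E →L[ℝ] E) ((g : E →L[ℝ] E) v) = v := by
        rw [← opmul_apply, Units.inv_mul]; rfl
      rw [← h2, h, map_zero]
    positivity
  set b := hs.eigenvectorBasis rfl with hb
  set d := hs.eigenvalues rfl with hd
  have hbd : ∀ i, P (b i) = d i • b i := fun i => hs.apply_eigenvectorBasis rfl i
  have hdpos : ∀ i, 0 < d i := by
    intro i
    have h1 := hpos (b i) (by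
      intro h
      have := b.norm_eq_one i
      rw [h, norm_zero] at this
      exact zero_ne_one this)
    rw [hbd, inner_smul_left, real_inner_self_eq_norm_sq, b.norm_eq_one] at h1
    simpa using h1
  have hP : P = Pt b (fun i => Real.log (d i) / 2) 2 := by
    apply dg_ext b
    intro j
    rw [hbd, Pt, dg_basis]
    congr 1
    rw [show (2 : ℝ) * (Real.log (d j) / 2) = Real.log (d j) by ring, Real.exp_log (hdpos j)]
  set a : Fin (Module.finrank ℝ E) → ℝ := fun i => Real.log (d i) / 2 with ha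
  refine ⟨b, a, (g : E →L[ℝ] E) * Pt b a (-1), ?_, ?_, ?_⟩
  · calc star ((g : E →L[ℝ] E) * Pt b a (-1)) * ((g : E →L[ℝ] E) * Pt b a (-1))
        = Pt b a (-1) * (star (g : E →L[ℝ] E) * g) * Pt b a (-1) := by
          rw [star_mul, Pt_star]; simp only [mul_assoc]
      _ = 1 := by
          rw [← hPdef, hP, Pt_mul, Pt_mul]
          have : (-1 + 2 + -1 : ℝ) = 0 := by norm_num
          rw [this, Pt_zero]
  · have h1 : star (g : E →L[ℝ] E) * g = Pt b a 2 := by rw [← hPdef, hP]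
    have h3 : star (((g⁻¹ : (E →L[ℝ] E)ˣ) : E →L[ℝ] E)) * star (g : E →L[ℝ] E) = 1 := by
      rw [← star_mul, Units.mul_inv, star_one]
    have h2 : (g : E →L[ℝ] E) = star (((g⁻¹ : (E →L[ℝ] E)ˣ) : E →L[ℝ] E)) * Pt b a 2 := by
      rw [← h1, ← mul_assoc, h3, one_mul]
    have h4 : (g : E →L[ℝ] E) * Pt b a (-2) = star (((g⁻¹ : (E →L[ℝ] E)ˣ) : E →L[ℝ] E)) := by
      conv_lhs => rw [h2]
      rw [mul_assoc, Pt_mul]
      have : (2 + -2 : ℝ) = 0 := by norm_num
      rw [this, Pt_zero, mul_one]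
    calc (g : E →L[ℝ] E) * Pt b a (-1) * star ((g : E →L[ℝ] E) * Pt b a (-1))
        = (g : E →L[ℝ] E) * (Pt b a (-1) * Pt b a (-1)) * star (g : E →L[ℝ] E) := by
          rw [star_mul, Pt_star]; simp only [mul_assoc]
      _ = 1 := by
          rw [Pt_mul]
          have : (-1 + -1 : ℝ) = -2 := by norm_num
          rw [this, h4, h3]
  · rw [mul_assoc, Pt_mul]
    have : (-1 + 1 : ℝ) = 0 := by norm_num
    rw [this, Pt_zero, mul_one]

/-- linear functionals on operators are given by the trace form -/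
lemma exists_trace_repr (ℓ : (E →L[ℝ] E) →ₗ[ℝ] ℝ) :
    ∃ M : E →L[ℝ] E, ∀ X, ℓ X = tr (X * M) := by
  let B : (E →L[ℝ] E) →ₗ[ℝ] Module.Dual ℝ (E →L[ℝ] E) :=
    LinearMap.mk₂ ℝ (fun M X => tr (X * M))
      (fun M M' X => by rw [mul_add, tr_add])
      (fun c M X => by rw [mul_smul_comm, tr_smul, smul_eq_mul])
      (fun M X X' => by rw [add_mul, tr_add])
      (fun c M X => by rw [smul_mul_assoc, tr_smul, smul_eq_mul])
  have hB : Function.Injective B := by
    rw [← LinearMap.ker_eq_bot, LinearMap.ker_eq_bot']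
    intro M hM
    have h1 : tr (star M * M) = 0 := LinearMap.congr_fun hM (star M)
    exact hs2_eq_zero h1
  have hS : Function.Surjective B :=
    (LinearMap.injective_iff_surjective_of_finrank_eq_finrank
      (Subspace.dual_finrank_eq (K := ℝ) (V := E →L[ℝ] E)).symm).1 hB
  obtain ⟨M, hM⟩ := hS ℓ
  exact ⟨M, fun X => by rw [← hM]; rfl⟩

end Pool.Agent.Lib.MP_d9b062_al.H9
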