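import Pool.Agent.Lib.MP_d9b062_al_h9.Mos0

/-!
# Minimal vectors: minimality over the commutant of `A` implies minimality over `SL`
-/

namespace Pool.Agent.Lib.MP_d9b062_al.H9

open NormedSpace Filter H64
open scoped Topology InnerProductSpace

set_option linter.unusedSectionVars false

variable {E : Type*} [NormedAddCommGroup E] [InnerProductSpace ℝ E] [CompleteSpace E]
  [FiniteDimensional ℝ E]
variable {E' : Type*} [NormedAddCommGroup E'] [InnerProductSpace ℝ E'] [CompleteSpace E']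
  [FiniteDimensional ℝ E']

/-- the determinant -/
noncomputable def dt (T : E →L[ℝ] E) : ℝ := LinearMap.det (T : E →ₗ[ℝ] E)

lemma dt_mul (S T : E →L[ℝ] E) : dt (S * T) = dt S * dt T :=
  map_mul LinearMap.det (S : E →ₗ[ℝ] E) (T : E →ₗ[ℝ] E)

lemma dt_one : dt (1 : E →L[ℝ] E) = 1 := map_one LinearMap.det

lemma dt_star (T : E →L[ℝ] E) : dt (star T) = dt T := by
  classical
  let b := stdOrthonormalBasis ℝ E
  have h1 := LinearMap.toMatrix_adjoint b b (T : E →ₗ[ℝ] E)
  have h2 : ((star T : E →L[ℝ] E) : E →ₗ[ℝ] E) = LinearMap.adjoint (T : E →ₗ[ℝ] E) := by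
    rw [ContinuousLinearMap.star_eq_adjoint]; rfl
  unfold dt
  rw [h2, ← LinearMap.det_toMatrix b.toBasis, h1, Matrix.det_conjTranspose,
    LinearMap.det_toMatrix b.toBasis]
  simp

lemma dt_continuous : Continuous (dt : (E →L[ℝ] E) → ℝ) := ContinuousLinearMap.continuous_det

lemma dt_isom {k : E →L[ℝ] E} (hk : star k * k = 1) : dt k = 1 ∨ dt k = -1 := by
  have h := congrArg dt hk
  rw [dt_mul, dt_star, dt_one] at h
  exact mul_self_eq_one_iff.1 h

lemma dt_Pt {κ : Type*} [Fintype κ] (b : OrthonormalBasis κ ℝ E) (a : κ → ℝ) (t : ℝ) :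
    dt (Pt b a t) = Real.exp (t * ∑ i, a i) := det_Pt b a t

/-- in the polar decomposition of an element of `SL`, both factors are in `SL` -/
lemma polar_det {κ : Type*} [Fintype κ] {b : OrthonormalBasis κ ℝ E} {a : κ → ℝ}
    {k g : E →L[ℝ] E} (hk : star k * k = 1) (hg : g = k * Pt b a 1) (hd : dt g = 1) :
    dt k = 1 ∧ ∑ i, a i = 0 := by
  have h1 : dt g = dt k * Real.exp (∑ i, a i) := by rw [hg, dt_mul, dt_Pt, one_mul]
  rw [hd] at h1
  have h2 := Real.exp_pos (∑ i, a i)
  rcases dt_isom hk with h | h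
  · refine ⟨h, ?_⟩
    rw [h, one_mul] at h1
    exact (Real.exp_eq_one_iff _).1 h1.symm
  · rw [h] at h1
    exfalso
    linarith

lemma exists_unit_of_dt {g : E →L[ℝ] E} (h : dt g ≠ 0) : IsUnit g := by
  have h1 : IsUnit (LinearMap.det (g : E →ₗ[ℝ] E)) := isUnit_iff_ne_zero.2 h
  have h2 : IsUnit (g : E →ₗ[ℝ] E) := (LinearMap.isUnit_iff_isUnit_det _).2 h1
  have h3 : IsUnit ((LinearMap.toContinuousLinearMap : (E →ₗ[ℝ] E) ≃ₗ[ℝ] (E →L[ℝ] E))
      (g : E →ₗ[ℝ] E)) := by
    obtain ⟨u, hu⟩ := h2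
    refine ⟨⟨LinearMap.toContinuousLinearMap (u : E →ₗ[ℝ] E),
      LinearMap.toContinuousLinearMap ((u⁻¹ : (E →ₗ[ℝ] E)ˣ) : E →ₗ[ℝ] E), ?_, ?_⟩, ?_⟩
    · ext v
      exact LinearMap.congr_fun (Units.mul_inv u) v
    · ext v
      exact LinearMap.congr_fun (Units.inv_mul u) v
    · rw [← hu]
  exact h3

variable (R : (E →L[ℝ] E) →* (E' →L[ℝ] E')) (w : E')

/-- the function to be minimized -/
noncomputable def Phi (ε : ℝ) (g : E →L[ℝ] E) : ℝ := ‖R g w‖ ^ 2 + ε * hs2 g

variable {R}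

section

variable (hRs : ∀ T, R (star T) = star (R T))

include hRs

lemma R_isom {k : E →L[ℝ] E} (hk : star k * k = 1) (v : E') : ‖R k v‖ = ‖v‖ := by
  have h1 : ‖R k v‖ ^ 2 = ‖v‖ ^ 2 := by
    rw [← real_inner_self_eq_norm_sq, ← star_inner, ← hRs, ← opmul_apply, ← map_mul, hk, map_one,
      one_apply_eq_self, real_inner_self_eq_norm_sq]
  exact (sq_eq_sq₀ (norm_nonneg _) (norm_nonneg _)).1 h1

variable {κ : Type*} [Fintype κ] (b : OrthonormalBasis κ ℝ E) (a : κ → ℝ)

lemma R_inner (v : E') (s t : ℝ) :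
    ⟪R (Pt b a s) v, R (Pt b a t) v⟫_ℝ = ⟪v, R (Pt b a (s + t)) v⟫_ℝ := by
  rw [← star_inner, ← hRs, Pt_star, ← opmul_apply, ← map_mul, Pt_mul]

lemma R_midpoint (v : E') (s t : ℝ) :
    ‖R (Pt b a ((s + t) / 2)) v‖ ^ 2 ≤ (‖R (Pt b a s) v‖ ^ 2 + ‖R (Pt b a t) v‖ ^ 2) / 2 := by
  have h1 : ‖R (Pt b a ((s + t) / 2)) v‖ ^ 2 = ⟪R (Pt b a s) v, R (Pt b a t) v⟫_ℝ := by
    rw [R_inner hRs, ← real_inner_self_eq_norm_sq, R_inner hRs]
    congr 3
    ring_nf
  rw [h1]
  have h2 := real_inner_le_norm (R (Pt b a s) v) (R (Pt b a t) v)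
  nlinarith [sq_nonneg (‖R (Pt b a s) v‖ - ‖R (Pt b a t) v‖)]

lemma Phi_isom (ε : ℝ) {k : E →L[ℝ] E} (hk : star k * k = 1) (g : E →L[ℝ] E) :
    Phi R w ε (k * g) = Phi R w ε g := by
  rw [Phi, Phi, hs2_isom_mul hk, map_mul, opmul_apply, R_isom hRs hk]

lemma Phi_midpoint {ε : ℝ} (hε : 0 ≤ ε) (g : E →L[ℝ] E) (s t : ℝ) :
    Phi R w ε (Pt b a ((s + t) / 2) * g) ≤
      (Phi R w ε (Pt b a s * g) + Phi R w ε (Pt b a t * g)) / 2 := by
  have h1 := R_midpoint hRs b a (R g w) s t
  have h2 := mul_le_mul_of_nonneg_left (hs2_Pt_midpoint b a g s t) hε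
  simp only [Phi, map_mul, opmul_apply]
  linarith

end

section

variable {κ : Type*} [Fintype κ] (b : OrthonormalBasis κ ℝ E) (a : κ → ℝ)

lemma R_hasDerivAt (hRd : DifferentiableAt ℝ (R : (E →L[ℝ] E) → (E' →L[ℝ] E')) 1) (v : E') :
    HasDerivAt (fun t => ‖R (Pt b a t) v‖ ^ 2)
      (2 * ⟪v, fderiv ℝ (R : (E →L[ℝ] E) → (E' →L[ℝ] E')) 1 (dg b a) v⟫_ℝ) 0 := by
  have h1 : HasFDerivAt (R : (E →L[ℝ] E) → (E' →L[ℝ] E'))
      (fderiv ℝ (R : (E →L[ℝ] E) → (E' →L[ℝ] E')) 1) (Pt b a 0) := by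
    rw [Pt_zero]; exact hRd.hasFDerivAt
  have h2 := h1.comp_hasDerivAt (0 : ℝ) (hasDerivAt_Pt b a)
  have h3 : HasDerivAt (fun t => R (Pt b a t) v)
      (fderiv ℝ (R : (E →L[ℝ] E) → (E' →L[ℝ] E')) 1 (dg b a) v) 0 :=
    (ContinuousLinearMap.apply ℝ E' v).hasFDerivAt.comp_hasDerivAt (0 : ℝ) h2
  have h4 := h3.norm_sq
  have h5 : R (Pt b a 0) v = v := by rw [Pt_zero, map_one]; rfl
  rwa [h5] at h4

lemma Phi_hasDerivAt (hRd : DifferentiableAt ℝ (R : (E →L[ℝ] E) → (E' →L[ℝ] E')) 1) (ε : ℝ)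
    (g : E →L[ℝ] E) : HasDerivAt (fun t => Phi R w ε (Pt b a t * g))
      (2 * ⟪R g w, fderiv ℝ (R : (E →L[ℝ] E) → (E' →L[ℝ] E')) 1 (dg b a) (R g w)⟫_ℝ +
        2 * ε * tr (dg b a * (g * star g))) 0 := by
  have h1 := R_hasDerivAt b a hRd (R g w)
  have h2 := (hasDerivAt_hs2_Pt b a 0 g).const_mul ε
  have h3 := h1.add h2
  have h4 : (fun t => Phi R w ε (Pt b a t * g)) =
      fun t => ‖R (Pt b a t) (R g w)‖ ^ 2 + ε * hs2 (Pt b a t * g) := by
    funext t
    rw [Phi, map_mul, opmul_apply]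
  have h5 : 2 * ε * tr (dg b a * (g * star g)) =
      ε * ∑ i, 2 * a i * Real.exp (2 * 0 * a i) * ‖star g (b i)‖ ^ 2 := by
    rw [tr_dg_mul, Finset.mul_sum, Finset.mul_sum]
    refine Finset.sum_congr rfl fun i _ => ?_
    rw [mul_zero, zero_mul, Real.exp_zero]
    ring
  rw [h4, h5]
  exact h3

end

/-- Kempf–Ness type argument: a minimum over the commutant of `A` is a global minimum. -/
theorem Phi_min [Nontrivial E] (hRs : ∀ T, R (star T) = star (R T))
    (hRd : DifferentiableAt ℝ (R : (E →L[ℝ] E) → (E' →L[ℝ] E')) 1)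
    {A : Set (E →L[ℝ] E)} (hAs : ∀ X ∈ A, star X = X)
    (hfix : ∀ X ∈ A, ∀ t : ℝ, R (exp (t • X)) w = w) {ε : ℝ} (hε : 0 ≤ ε) {g : E →L[ℝ] E}
    (hdet : dt g = 1) (hgA : ∀ X ∈ A, g * X = X * g)
    (hmin : ∀ h, dt h = 1 → (∀ X ∈ A, h * X = X * h) → Phi R w ε g ≤ Phi R w ε h) :
    ∀ h, dt h = 1 → Phi R w ε g ≤ Phi R w ε h := by
  set R' := fderiv ℝ (R : (E →L[ℝ] E) → (E' →L[ℝ] E')) 1 with hR'
  set v := R g w with hv
  let ℓ : (E →L[ℝ] E) →ₗ[ℝ] ℝ :=
    { toFun := fun X => 2 * ⟪v, R' X v⟫_ℝ + 2 * ε * tr (X * (g * star g))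
      map_add' := fun X Y => by
        have h1 : R' (X + Y) v = R' X v + R' Y v := by rw [map_add]; rfl
        rw [h1, inner_add_right, add_mul, tr_add]; ring
      map_smul' := fun c X => by
        have h1 : R' (c • X) v = c • R' X v := by rw [map_smul]; rfl
        rw [h1, inner_smul_right, smul_mul_assoc, tr_smul, RingHom.id_apply, smul_eq_mul]; ring }
  have hℓ : ∀ X, ℓ X = 2 * ⟪v, R' X v⟫_ℝ + 2 * ε * tr (X * (g * star g)) := fun X => rfl
  -- diagonalisation of symmetric operators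
  have hdiag : ∀ X : E →L[ℝ] E, star X = X →
      ∃ (b : OrthonormalBasis (Fin (Module.finrank ℝ E)) ℝ E)
        (a : Fin (Module.finrank ℝ E) → ℝ), X = dg b a := by
    intro X hX
    have hs : LinearMap.IsSymmetric (X : E →ₗ[ℝ] E) := by
      rw [← ContinuousLinearMap.isSelfAdjoint_iff_isSymmetric]
      exact hX
    refine ⟨hs.eigenvectorBasis rfl, hs.eigenvalues rfl, ?_⟩
    apply dg_ext (hs.eigenvectorBasis rfl)
    intro j
    rw [dg_basis]
    exact hs.apply_eigenvectorBasis rfl j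
  -- stationarity in the directions commuting with `A`
  have h1 : ∀ X : E →L[ℝ] E, star X = X → (∀ H ∈ A, X * H = H * X) → tr X = 0 → ℓ X = 0 := by
    intro X hX hXA hXt
    obtain ⟨b, a, rfl⟩ := hdiag X hX
    rw [tr_dg] at hXt
    have h2 := Phi_hasDerivAt w b a hRd ε g
    refine IsLocalMin.hasDerivAt_eq_zero (f := fun t => Phi R w ε (Pt b a t * g)) ?_ h2
    refine Eventually.of_forall fun t => ?_
    show Phi R w ε (Pt b a 0 * g) ≤ Phi R w ε (Pt b a t * g)
    rw [Pt_zero, one_mul]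
    refine hmin _ ?_ ?_
    · rw [dt_mul, hdet, dt_Pt, hXt, mul_zero, Real.exp_zero, one_mul]
    · intro H hH
      have h3 : Pt b a t * H = H * Pt b a t := by
        rw [Pt_eq_exp]
        have h4 : Commute (t • dg b a) H := by
          show (t • dg b a) * H = H * (t • dg b a)
          rw [smul_mul_assoc, mul_smul_comm, hXA H hH]
        exact h4.exp_left.eq
      rw [mul_assoc, hgA H hH, ← mul_assoc, h3, mul_assoc]
  -- Riesz
  obtain ⟨M, hM⟩ := exists_trace_repr ℓ
  -- `M` commutes with `A`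
  have h2 : ∀ H ∈ A, M * H = H * M := by
    intro H hH
    have h3 : ∀ t : ℝ, exp (t • H) * M = M * exp (t • H) := by
      intro t
      set u : E →L[ℝ] E := exp (t • H) with hu
      set u' : E →L[ℝ] E := exp ((-t) • H) with hu'
      obtain ⟨b, a, hab⟩ := hdiag H (hAs H hH)
      have hup : u = Pt b a t := by rw [hu, hab, Pt_eq_exp]
      have hup' : u' = Pt b a (-t) := by rw [hu', hab, Pt_eq_exp]
      have huu' : u * u' = 1 := by rw [hup, hup', Pt_mul, add_neg_cancel, Pt_zero]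
      have hu'u : u' * u = 1 := by rw [hup, hup', Pt_mul, neg_add_cancel, Pt_zero]
      have hus : star u = u := by rw [hup, Pt_star]
      have hgu : g * u = u * g := by
        have h4 : Commute (t • H) g := by
          show (t • H) * g = g * (t • H)
          rw [smul_mul_assoc, mul_smul_comm, hgA H hH]
        exact h4.exp_left.eq.symm
      have hgsu : star g * u = u * star g := by
        have h4 := congrArg star hgu
        rw [star_mul, star_mul, hus] at h4
        exact h4.symm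
      have hRv : R u v = v := by
        rw [hv, ← opmul_apply, ← map_mul, ← hgu, map_mul, opmul_apply, hfix H hH t]
      have hRv' : R u' v = v := by
        conv_lhs => rw [← hRv]
        rw [← opmul_apply, ← map_mul, hu'u, map_one]; rfl
      -- derivative of `R` along conjugation
      have hconj : ∀ X, R' (u * X * u') = R u * R' X * R u' := by
        intro X
        have e1 : (R : (E →L[ℝ] E) → (E' →L[ℝ] E')) ∘ (fun T => u * T * u') =
            fun T => R u * R T * R u' := by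
          funext T; simp [map_mul]
        have e2 : HasFDerivAt (fun T : E →L[ℝ] E => u * T * u')
            (((ContinuousLinearMap.mul ℝ (E →L[ℝ] E)).flip u').comp
              (ContinuousLinearMap.mul ℝ (E →L[ℝ] E) u)) 1 :=
          (((ContinuousLinearMap.mul ℝ (E →L[ℝ] E)).flip u').comp
              (ContinuousLinearMap.mul ℝ (E →L[ℝ] E) u)).hasFDerivAt
        have e3 : HasFDerivAt (R : (E →L[ℝ] E) → (E' →L[ℝ] E')) R' (u * 1 * u') := by
          rw [mul_one, huu']; exact hRd.hasFDerivAt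
        have e4 := HasFDerivAt.comp (1 : E →L[ℝ] E) e3 e2
        rw [e1] at e4
        have e5 : HasFDerivAt (fun T : E →L[ℝ] E => R u * R T * R u')
            ((((ContinuousLinearMap.mul ℝ (E' →L[ℝ] E')).flip (R u')).comp
              (ContinuousLinearMap.mul ℝ (E' →L[ℝ] E') (R u))).comp R') 1 :=
          HasFDerivAt.comp (1 : E →L[ℝ] E)
            (((ContinuousLinearMap.mul ℝ (E' →L[ℝ] E')).flip (R u')).comp
              (ContinuousLinearMap.mul ℝ (E' →L[ℝ] E') (R u))).hasFDerivAt hRd.hasFDerivAt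
        have e6 := e4.unique e5
        have e7 := congrArg (fun L : (E →L[ℝ] E) →L[ℝ] (E' →L[ℝ] E') => L X) e6
        exact e7
      have hinv : ∀ X, ℓ (u * X * u') = ℓ X := by
        intro X
        rw [hℓ, hℓ, hconj]
        have f1 : ⟪v, (R u * R' X * R u') v⟫_ℝ = ⟪v, R' X v⟫_ℝ := by
          rw [opmul_apply, opmul_apply, hRv']
          have : R u = star (R u) := by rw [← hRs, hus]
          rw [this, star_inner, hRv]
        have f2 : tr (u * X * u' * (g * star g)) = tr (X * (g * star g)) := by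
          have f3 : u' * (g * star g) * u = g * star g := by
            rw [mul_assoc, mul_assoc, hgsu, ← mul_assoc g, hgu, ← mul_assoc, ← mul_assoc, hu'u,
              one_mul]
          calc tr (u * X * u' * (g * star g)) = tr (u * (X * u' * (g * star g))) := by
                simp only [mul_assoc]
            _ = tr (X * (u' * (g * star g) * u)) := by
                rw [tr_mul_comm]; simp only [mul_assoc]
            _ = _ := by rw [f3]
        rw [f1, f2]
      have hM2 : ∀ X, tr (X * (u' * M * u - M)) = 0 := by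
        intro X
        have f1 := hinv X
        rw [hM, hM] at f1
        have f2 : tr (u * X * u' * M) = tr (X * (u' * M * u)) := by
          calc tr (u * X * u' * M) = tr (u * (X * u' * M)) := by simp only [mul_assoc]
            _ = _ := by rw [tr_mul_comm]; simp only [mul_assoc]
        rw [mul_sub, tr_sub, ← f2, f1, sub_self]
      have hM3 : u' * M * u - M = 0 := hs2_eq_zero (hM2 _)
      rw [sub_eq_zero] at hM3
      calc u * M = u * (u' * M * u) := by rw [hM3]
        _ = (u * u') * M * u := by simp only [mul_assoc]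
        _ = M * u := by rw [huu', one_mul]
    -- differentiate
    have h4 : HasDerivAt (fun t : ℝ => exp (t • H)) H 0 := by
      obtain ⟨b, a, hab⟩ := hdiag H (hAs H hH)
      have h5 := hasDerivAt_Pt b a
      have h6 : Pt b a = fun t : ℝ => exp (t • H) := by
        funext t; rw [Pt_eq_exp, hab]
      rw [h6, ← hab] at h5
      exact h5
    have h5 : HasDerivAt (fun t : ℝ => exp (t • H) * M) (H * M) 0 := h4.mul_const M
    have h6 : HasDerivAt (fun t : ℝ => exp (t • H) * M) (M * H) 0 := by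
      have h7 : (fun t : ℝ => exp (t • H) * M) = fun t : ℝ => M * exp (t • H) := by
        funext t; exact h3 t
      rw [h7]
      exact h4.const_mul M
    exact h6.unique h5
  -- the symmetric part of `M` is scalar
  set M' : E →L[ℝ] E := M + star M with hM'
  have hM's : star M' = M' := by rw [hM', star_add, star_star, add_comm]
  have hM'A : ∀ H ∈ A, M' * H = H * M' := by
    intro H hH
    have h3 := congrArg star (h2 H hH)
    rw [star_mul, star_mul, hAs H hH] at h3
    rw [hM', add_mul, mul_add, h2 H hH, ← h3]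
  have hsymM : ∀ X : E →L[ℝ] E, star X = X → ℓ X = tr (X * M') / 2 := by
    intro X hX
    have h3 : tr (X * star M) = tr (X * M) := by
      have h4 : tr (star (M * X)) = tr (M * X) := by
        let b := stdOrthonormalBasis ℝ E
        rw [tr_eq b, tr_eq b]
        refine Finset.sum_congr rfl fun i _ => ?_
        rw [star_inner, real_inner_comm]
      rw [star_mul, hX] at h4
      rw [h4, tr_mul_comm]
    rw [hM, hM', mul_add, tr_add, h3]; ring
  have hn : (0 : ℝ) < (Module.finrank ℝ E : ℝ) := by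
    exact_mod_cast Module.finrank_pos (R := ℝ) (M := E)
  have htr1 : tr (1 : E →L[ℝ] E) = Module.finrank ℝ E := LinearMap.trace_one ℝ E
  set c : ℝ := tr M' / Module.finrank ℝ E with hc
  set X₀ : E →L[ℝ] E := M' - c • (1 : E →L[ℝ] E) with hX₀
  have hX₀s : star X₀ = X₀ := by rw [hX₀, star_sub, star_smul, hM's, star_one]; simp
  have hX₀t : tr X₀ = 0 := by
    rw [hX₀, tr_sub, tr_smul, htr1, hc, div_mul_cancel₀ _ hn.ne', sub_self]
  have hX₀A : ∀ H ∈ A, X₀ * H = H * X₀ := by
    intro H hH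
    rw [hX₀, sub_mul, mul_sub, hM'A H hH, smul_mul_assoc, mul_smul_comm, one_mul, mul_one]
  have h3 : tr (X₀ * M') = 0 := by
    have := h1 X₀ hX₀s hX₀A hX₀t
    rw [hsymM X₀ hX₀s] at this
    linarith
  have h4 : X₀ = 0 := by
    apply hs2_eq_zero
    rw [hs2, hX₀s]
    have : X₀ * X₀ = X₀ * M' - c • X₀ := by
      conv_lhs => rw [hX₀]
      rw [← hX₀, mul_sub, mul_smul_comm, mul_one]
    rw [this, tr_sub, tr_smul, h3, hX₀t, mul_zero, sub_zero]
  have h5 : M' = c • (1 : E →L[ℝ] E) := sub_eq_zero.1 (hX₀ ▸ h4)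
  have h6 : ∀ X : E →L[ℝ] E, star X = X → tr X = 0 → ℓ X = 0 := by
    intro X hX hXt
    rw [hsymM X hX, h5, mul_smul_comm, mul_one, tr_smul, hXt]; ring
  -- conclusion by convexity
  intro h hh
  obtain ⟨gu, hgu⟩ := exists_unit_of_dt (g := g) (by rw [hdet]; exact one_ne_zero)
  obtain ⟨hu, hhu⟩ := exists_unit_of_dt (g := h) (by rw [hh]; exact one_ne_zero)
  obtain ⟨b, a, k, hk, -, hka⟩ := polarGL (hu * gu⁻¹)
  have hd1 : dt ((hu * gu⁻¹ : (E →L[ℝ] E)ˣ) : E →L[ℝ] E) = 1 := by
    have h7 : dt (((hu * gu⁻¹ : (E →L[ℝ] E)ˣ) : E →L[ℝ] E) * g) = dt h := by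
      rw [← hgu, ← hhu, ← Units.val_mul, inv_mul_cancel_right]
    rw [dt_mul, hdet, mul_one, hh] at h7
    exact h7
  obtain ⟨hdk, hsum⟩ := polar_det hk hka hd1
  have h7 : h = k * (Pt b a 1 * g) := by
    rw [← mul_assoc, ← hka, ← hgu, ← hhu, ← Units.val_mul, inv_mul_cancel_right]
  rw [h7, Phi_isom w hRs ε hk]
  have h8 := Phi_hasDerivAt w b a hRd ε g
  have h9 := midpoint_deriv (f := fun t => Phi R w ε (Pt b a t * g))
    (fun s t => Phi_midpoint w hRs b a hε g s t) h8
  have h10 : ℓ (dg b a) = 0 := h6 _ (dg_star b a) (by rw [tr_dg, hsum])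
  rw [hℓ] at h10
  rw [h10] at h9
  simp only [Pt_zero, one_mul] at h9
  linarith

end Pool.Agent.Lib.MP_d9b062_al.H9
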