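import Pool.Agent.Lib.MP_d9b062_al_h9.Mos1

/-!
# Minimal vectors: existence and limits of minimizers, Mostow's theorem
-/

namespace Pool.Agent.Lib.MP_d9b062_al.H9

open NormedSpace Filter H64
open scoped Topology InnerProductSpace

set_option linter.unusedSectionVars false

variable {E : Type*} [NormedAddCommGroup E] [InnerProductSpace ℝ E] [CompleteSpace E]
  [FiniteDimensional ℝ E]
variable {E' : Type*} [NormedAddCommGroup E'] [InnerProductSpace ℝ E'] [CompleteSpace E']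
  [FiniteDimensional ℝ E']
variable {R : (E →L[ℝ] E) →* (E' →L[ℝ] E')} (w : E')

lemma Phi_continuous (hRc : Continuous R) (ε : ℝ) : Continuous (Phi R w ε) := by
  have h1 : Continuous fun g : E →L[ℝ] E => R g w :=
    (ContinuousLinearMap.apply ℝ E' w).continuous.comp hRc
  exact ((h1.norm).pow 2).add (continuous_const.mul hs2_continuous)

lemma exists_minimizer (hRc : Continuous R) (A : Set (E →L[ℝ] E)) {ε : ℝ} (hε : 0 < ε) :
    ∃ g : E →L[ℝ] E, dt g = 1 ∧ (∀ X ∈ A, g * X = X * g) ∧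
      ∀ h, dt h = 1 → (∀ X ∈ A, h * X = X * h) → Phi R w ε g ≤ Phi R w ε h := by
  set B := Phi R w ε 1 with hB
  set K : Set (E →L[ℝ] E) := {g | dt g = 1 ∧ (∀ X ∈ A, g * X = X * g) ∧ hs2 g ≤ B / ε} with hK
  have hcl : IsClosed K := by
    have h1 : IsClosed {g : E →L[ℝ] E | dt g = 1} := isClosed_eq dt_continuous continuous_const
    have h2 : IsClosed {g : E →L[ℝ] E | ∀ X ∈ A, g * X = X * g} := by
      have : {g : E →L[ℝ] E | ∀ X ∈ A, g * X = X * g} =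
          ⋂ X ∈ A, {g : E →L[ℝ] E | g * X = X * g} := by
        ext g; simp
      rw [this]
      refine isClosed_biInter fun X _ => ?_
      exact isClosed_eq (continuous_id.mul continuous_const) (continuous_const.mul continuous_id)
    have h3 : IsClosed {g : E →L[ℝ] E | hs2 g ≤ B / ε} :=
      isClosed_le hs2_continuous continuous_const
    exact h1.inter (h2.inter h3)
  have hbd : Bornology.IsBounded K := by
    refine (Metric.isBounded_closedBall (x := (0 : E →L[ℝ] E))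
      (r := Real.sqrt (B / ε))).subset fun g hg => ?_
    rw [mem_closedBall_zero_iff]
    exact (norm_le_sqrt_hs2 g).trans (Real.sqrt_le_sqrt hg.2.2)
  have hKc : IsCompact K := Metric.isCompact_of_isClosed_isBounded hcl hbd
  have hone : (1 : E →L[ℝ] E) ∈ K := by
    refine ⟨dt_one, fun X _ => by rw [one_mul, mul_one], ?_⟩
    rw [le_div_iff₀ hε, hB, Phi]
    have : 0 ≤ ‖R (1 : E →L[ℝ] E) w‖ ^ 2 := by positivity
    linarith
  obtain ⟨g, hg, hmin⟩ := hKc.exists_isMinOn ⟨1, hone⟩ (Phi_continuous w hRc ε).continuousOn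
  refine ⟨g, hg.1, hg.2.1, fun h h1 h2 => ?_⟩
  by_cases h3 : hs2 h ≤ B / ε
  · exact hmin ⟨h1, h2, h3⟩
  · rw [not_le, div_lt_iff₀ hε] at h3
    have h4 : Phi R w ε g ≤ B := hmin hone
    have h5 : 0 ≤ ‖R h w‖ ^ 2 := by positivity
    have h6 : Phi R w ε h = ‖R h w‖ ^ 2 + ε * hs2 h := rfl
    linarith

lemma neg_mul_exp_le (x : ℝ) : -(x * Real.exp (2 * x)) ≤ 1 := by
  rcases le_or_gt 0 x with h | h
  · have := mul_nonneg h (Real.exp_pos (2 * x)).le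
    linarith
  · have h1 := Real.add_one_le_exp (-x)
    have h2 : Real.exp (2 * x) * Real.exp (-x) ≤ 1 := by
      rw [← Real.exp_add, Real.exp_le_one_iff]; linarith
    have h3 := Real.exp_pos (2 * x)
    nlinarith

/-- the key estimate -/
lemma key_estimate (hRs : ∀ T, R (star T) = star (R T)) {ε : ℝ} (hε : 0 < ε) {g : E →L[ℝ] E}
    (hdet : dt g = 1) (hmin : ∀ h, dt h = 1 → Phi R w ε g ≤ Phi R w ε h)
    (γ : (E →L[ℝ] E)ˣ) (hγ : R (γ : E →L[ℝ] E) w = w) (hγd : dt (γ : E →L[ℝ] E) = 1)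
    {r : ℝ} (hr : 0 < r) (v : E) :
    ‖g ((γ : E →L[ℝ] E) v)‖ ^ 2 ≤ Real.exp (2 * r) * ‖g v‖ ^ 2 +
      ‖(γ : E →L[ℝ] E)‖ ^ 2 * ‖((γ⁻¹ : (E →L[ℝ] E)ˣ) : E →L[ℝ] E)‖ ^ 2 / r * hs2 g * ‖v‖ ^ 2 := by
  classical
  obtain ⟨gu, hgu⟩ := exists_unit_of_dt (g := g) (by rw [hdet]; exact one_ne_zero)
  obtain ⟨b, a, k, hk, hk', hka⟩ := polarGL (gu * γ * gu⁻¹)
  set γi : E →L[ℝ] E := ((γ⁻¹ : (E →L[ℝ] E)ˣ) : E →L[ℝ] E) with hγi
  have hγγi : (γ : E →L[ℝ] E) * γi = 1 := Units.mul_inv γ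
  have hγiγ : γi * (γ : E →L[ℝ] E) = 1 := Units.inv_mul γ
  have hgγ : g * γ = k * Pt b a 1 * g := by
    rw [← hka, ← hgu, ← Units.val_mul, ← Units.val_mul, inv_mul_cancel_right]
  have hRγi : R γi w = w := by
    conv_lhs => rw [← hγ]
    rw [← opmul_apply, ← map_mul, hγiγ, map_one]; rfl
  have hdγi : dt γi = 1 := by
    have := congrArg dt hγγi
    rwa [dt_mul, hγd, one_mul, dt_one] at this
  have hdgu : dt ((gu * γ * gu⁻¹ : (E →L[ℝ] E)ˣ) : E →L[ℝ] E) = 1 := by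
    have h7 : dt (((gu * γ * gu⁻¹ : (E →L[ℝ] E)ˣ) : E →L[ℝ] E) * g) = dt (g * (γ : E →L[ℝ] E)) := by
      rw [← hgu, ← Units.val_mul, inv_mul_cancel_right, Units.val_mul]
    rw [dt_mul, dt_mul, hdet, mul_one, hγd, mul_one] at h7
    exact h7
  obtain ⟨hdk, hsum⟩ := polar_det hk hka hdgu
  set u := R g w with hu
  -- the function `a`
  have hA1 : ‖R (Pt b a 1) u‖ = ‖u‖ := by
    rw [← R_isom hRs hk (R (Pt b a 1) u), hu, ← opmul_apply, ← opmul_apply, ← map_mul, ← map_mul,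
      ← hgγ, map_mul, opmul_apply, hγ]
  have hA0 : R (Pt b a 0) u = u := by rw [Pt_zero, map_one]; rfl
  have hA : ∀ n : ℕ, ‖R (Pt b a (1 - (1 / 2 : ℝ) ^ n)) u‖ ^ 2 ≤ ‖u‖ ^ 2 := by
    intro n
    have := midpoint_le (a := fun t => ‖R (Pt b a t) u‖ ^ 2)
      (fun s t => R_midpoint hRs b a u s t) (by simp only [hA1, hA0, le_refl]) n
    simpa only [hA1] using this
  -- the function `β`
  have hβ1 : hs2 (Pt b a 1 * (g * γi)) = hs2 g := by
    have h1 : Pt b a 1 * (g * γi) = star k * g := by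
      have h2 : k * (Pt b a 1 * (g * γi)) = g := by
        rw [← mul_assoc, ← mul_assoc, ← hgγ, mul_assoc, hγγi, mul_one]
      rw [← h2, ← mul_assoc (star k), hk, one_mul, h2]
    rw [h1, hs2_isom_mul (by rw [star_star, hk'])]
  have hβ : ∀ n : ℕ, hs2 (Pt b a 1 * (g * γi)) ≤
      hs2 (Pt b a (1 - (1 / 2 : ℝ) ^ n) * (g * γi)) := by
    intro n
    set t := 1 - (1 / 2 : ℝ) ^ n with ht
    have h1 := hmin (Pt b a t * (g * γi)) (by
      rw [dt_mul, dt_mul, hdet, hdγi, dt_Pt, hsum, mul_zero, Real.exp_zero, one_mul, one_mul])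
    have h2 : Phi R w ε (Pt b a t * (g * γi)) =
        ‖R (Pt b a t) u‖ ^ 2 + ε * hs2 (Pt b a t * (g * γi)) := by
      rw [Phi, map_mul, map_mul, opmul_apply, opmul_apply, hRγi]
    have h3 : Phi R w ε g = ‖u‖ ^ 2 + ε * hs2 g := rfl
    rw [h2, h3] at h1
    rw [hβ1]
    have h4 := hA n
    have h5 : ε * hs2 g ≤ ε * hs2 (Pt b a t * (g * γi)) := by linarith
    exact le_of_mul_le_mul_left h5 hε
  have hder := deriv_nonpos_of_seq (β := fun t => hs2 (Pt b a t * (g * γi)))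
    (hasDerivAt_hs2_Pt b a 1 (g * γi)) hβ
  set vv : Fin (Module.finrank ℝ E) → ℝ := fun i => ‖star (g * γi) (b i)‖ ^ 2 with hvv
  have hvv0 : ∀ i, 0 ≤ vv i := fun i => by positivity
  have hS1 : ∑ i, a i * Real.exp (2 * a i) * vv i ≤ 0 := by
    have h1 : ∑ i, 2 * a i * Real.exp (2 * 1 * a i) * ‖star (g * γi) (b i)‖ ^ 2 =
        2 * ∑ i, a i * Real.exp (2 * a i) * vv i := by
      rw [Finset.mul_sum]
      refine Finset.sum_congr rfl fun i _ => ?_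
      rw [mul_one]; ring
    rw [h1] at hder
    linarith
  have hS2 : ∑ i, vv i ≤ ‖γi‖ ^ 2 * hs2 g := by
    rw [hvv, ← hs2_eq b, hs2_star]
    exact hs2_mul_le' g γi
  have hS3 : r * ∑ i, (if r < a i then Real.exp (2 * a i) * vv i else 0) ≤
      ‖γi‖ ^ 2 * hs2 g := by
    have h1 : r * ∑ i, (if r < a i then Real.exp (2 * a i) * vv i else 0) ≤
        ∑ i, (a i * Real.exp (2 * a i) * vv i + vv i) := by
      rw [Finset.mul_sum]
      refine Finset.sum_le_sum fun i _ => ?_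
      have h2 := neg_mul_exp_le (a i)
      have h3 := Real.exp_pos (2 * a i)
      have h4 := hvv0 i
      split_ifs with h5
      · have h6 : r * (Real.exp (2 * a i) * vv i) ≤ a i * (Real.exp (2 * a i) * vv i) :=
          mul_le_mul_of_nonneg_right h5.le (mul_nonneg h3.le h4)
        nlinarith
      · rw [mul_zero]
        nlinarith
    rw [Finset.sum_add_distrib] at h1
    linarith
  -- conclusion
  have h1 : ‖g ((γ : E →L[ℝ] E) v)‖ ^ 2 = ∑ i, Real.exp (2 * a i) * ⟪b i, g v⟫_ℝ ^ 2 := by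
    have h2 : g ((γ : E →L[ℝ] E) v) = k (Pt b a 1 (g v)) := by
      rw [← opmul_apply, hgγ]; rfl
    have h3 : ‖k (Pt b a 1 (g v))‖ ^ 2 = ‖Pt b a 1 (g v)‖ ^ 2 := by
      generalize Pt b a 1 (g v) = x
      have h4 : star k (k x) = x := by rw [← opmul_apply, hk]; rfl
      rw [← real_inner_self_eq_norm_sq, ← star_inner, h4, real_inner_self_eq_norm_sq]
    rw [h2, h3, ← b.sum_sq_norm_inner_right]
    refine Finset.sum_congr rfl fun i _ => ?_
    rw [← star_inner', Pt_star, Pt, dg_basis, inner_smul_left, norm_mul, mul_pow]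
    simp only [RCLike.conj_to_real, Real.norm_eq_abs, sq_abs]
    congr 1
    rw [← Real.exp_nat_mul]; congr 1; push_cast; ring
  have h2 : ∀ i, Real.exp (2 * a i) * ⟪b i, g v⟫_ℝ ^ 2 ≤
      Real.exp (2 * r) * ‖⟪b i, g v⟫_ℝ‖ ^ 2 + ‖(γ : E →L[ℝ] E)‖ ^ 2 * ‖v‖ ^ 2 *
        (if r < a i then Real.exp (2 * a i) * vv i else 0) := by
    intro i
    rw [Real.norm_eq_abs, sq_abs]
    split_ifs with h5
    · have h3 : ⟪b i, g v⟫_ℝ ^ 2 ≤ ‖(γ : E →L[ℝ] E)‖ ^ 2 * vv i * ‖v‖ ^ 2 := by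
        have h4 : star g = star (γ : E →L[ℝ] E) * star (g * γi) := by
          rw [← star_mul, mul_assoc, hγiγ, mul_one]
        have h5 : ‖star g (b i)‖ ≤ ‖(γ : E →L[ℝ] E)‖ * ‖star (g * γi) (b i)‖ := by
          rw [h4, opmul_apply, ← norm_star (γ : E →L[ℝ] E)]
          exact ContinuousLinearMap.le_opNorm _ _
        have h6 : |⟪b i, g v⟫_ℝ| ≤ ‖(γ : E →L[ℝ] E)‖ * ‖star (g * γi) (b i)‖ * ‖v‖ := by
          rw [← star_inner']
          exact (abs_real_inner_le_norm _ _).trans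
            (mul_le_mul_of_nonneg_right h5 (norm_nonneg _))
        have h7 := pow_le_pow_left₀ (abs_nonneg _) h6 2
        rw [sq_abs, mul_pow, mul_pow] at h7
        exact h7
      have h4 := Real.exp_pos (2 * a i)
      have h6 := mul_le_mul_of_nonneg_left h3 h4.le
      have h7 : 0 ≤ Real.exp (2 * r) * ⟪b i, g v⟫_ℝ ^ 2 := by positivity
      nlinarith
    · rw [mul_zero, add_zero]
      refine mul_le_mul_of_nonneg_right ?_ (sq_nonneg _)
      rw [Real.exp_le_exp]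
      linarith [not_lt.1 h5]
  rw [h1]
  refine (Finset.sum_le_sum fun i _ => h2 i).trans ?_
  rw [Finset.sum_add_distrib, ← Finset.mul_sum, ← Finset.mul_sum, b.sum_sq_norm_inner_right]
  have h3 : ∑ i, (if r < a i then Real.exp (2 * a i) * vv i else 0) ≤
      ‖γi‖ ^ 2 * hs2 g / r := by
    rw [le_div_iff₀ hr, mul_comm]; exact hS3
  have h4 : 0 ≤ ‖(γ : E →L[ℝ] E)‖ ^ 2 * ‖v‖ ^ 2 := by positivity
  have h5 := mul_le_mul_of_nonneg_left h3 h4
  have h6 : ‖(γ : E →L[ℝ] E)‖ ^ 2 * ‖v‖ ^ 2 * (‖γi‖ ^ 2 * hs2 g / r) =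
      ‖(γ : E →L[ℝ] E)‖ ^ 2 * ‖γi‖ ^ 2 / r * hs2 g * ‖v‖ ^ 2 := by ring
  rw [h6] at h5
  linarith

/-- a sequence of elements of `SL` satisfying the key estimate for an irreducible group does not
tend to infinity -/
lemma not_tendsto [Nontrivial E] {G : Subgroup (E →L[ℝ] E)ˣ}
    (hirr : ∀ W : Submodule ℝ E, (∀ g ∈ G, ∀ v ∈ W, (g : E →L[ℝ] E) v ∈ W) → W = ⊥ ∨ W = ⊤)
    (g : ℕ → (E →L[ℝ] E)) (hd : ∀ n, dt (g n) = 1)
    (hest : ∀ γ ∈ G, ∃ C : ℝ, ∀ n, ∀ r : ℝ, 0 < r → ∀ v,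
      ‖g n ((γ : E →L[ℝ] E) v)‖ ^ 2 ≤ Real.exp (2 * r) * ‖g n v‖ ^ 2 +
        C / r * hs2 (g n) * ‖v‖ ^ 2) :
    ¬ Tendsto (fun n => hs2 (g n)) atTop atTop := by
  intro hT
  set s : ℕ → ℝ := fun n => Real.sqrt (hs2 (g n)) with hs
  have hsT : Tendsto s atTop atTop := Real.tendsto_sqrt_atTop.comp hT
  have hspos : ∀ᶠ n in atTop, 0 < s n := hsT.eventually_gt_atTop 0
  have hs2eq : ∀ n, s n ^ 2 = hs2 (g n) := fun n => Real.sq_sqrt (hs2_nonneg _)
  set G' : ℕ → (E →L[ℝ] E) := fun n => (s n)⁻¹ • g n with hG'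
  have hbd : ∀ n, G' n ∈ Metric.closedBall (0 : E →L[ℝ] E) 1 := by
    intro n
    rw [mem_closedBall_zero_iff]
    have h1 : ‖G' n‖ = |(s n)⁻¹| * ‖g n‖ := norm_smul _ _
    rw [h1, abs_of_nonneg (inv_nonneg.2 (Real.sqrt_nonneg _))]
    have h2 := norm_le_sqrt_hs2 (g n)
    rcases eq_or_lt_of_le (Real.sqrt_nonneg (hs2 (g n))) with h3 | h3
    · have : (s n)⁻¹ = 0 := by rw [hs]; simp only; rw [← h3, inv_zero]
      rw [this, zero_mul]; exact zero_le_one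
    · have h4 : 0 < s n := h3
      rw [inv_mul_le_iff₀ h4, mul_one]
      exact h2
  obtain ⟨T, -, φ, hφ, hlim⟩ := tendsto_subseq_of_bounded Metric.isBounded_closedBall hbd
  have hφT : Tendsto φ atTop atTop := hφ.tendsto_atTop
  have hspos' : ∀ᶠ n in atTop, 0 < s (φ n) := hφT.eventually hspos
  -- `T ≠ 0`
  have hT1 : hs2 T = 1 := by
    have h1 : Tendsto (fun n => hs2 (G' (φ n))) atTop (𝓝 (hs2 T)) :=
      (hs2_continuous.tendsto T).comp hlim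
    have h2 : (fun n => hs2 (G' (φ n))) =ᶠ[atTop] fun _ => (1 : ℝ) := by
      filter_upwards [hspos'] with n hn
      have : hs2 (G' (φ n)) = ((s (φ n))⁻¹) ^ 2 * hs2 (g (φ n)) := hs2_smul _ _
      rw [this, ← hs2eq, ← mul_pow, inv_mul_cancel₀ hn.ne', one_pow]
    exact tendsto_nhds_unique h1 (tendsto_const_nhds.congr' h2.symm)
  -- `det T = 0`
  have hT0 : dt T = 0 := by
    have h1 : Tendsto (fun n => dt (G' (φ n))) atTop (𝓝 (dt T)) :=
      (dt_continuous.tendsto T).comp hlim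
    have h2 : (fun n => dt (G' (φ n))) = fun n => ((s (φ n))⁻¹) ^ (Module.finrank ℝ E) := by
      funext n
      have h3 : dt (G' (φ n)) = ((s (φ n))⁻¹) ^ (Module.finrank ℝ E) * dt (g (φ n)) := by
        have := LinearMap.det_smul ((s (φ n))⁻¹) ((g (φ n) : E →L[ℝ] E) : E →ₗ[ℝ] E)
        exact this
      rw [h3, hd, mul_one]
    rw [h2] at h1
    have h4 : Tendsto (fun n => (s (φ n))⁻¹) atTop (𝓝 0) :=
      tendsto_inv_atTop_zero.comp (hsT.comp hφT)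
    have h5 := h4.pow (Module.finrank ℝ E)
    rw [zero_pow (Module.finrank_pos (R := ℝ) (M := E)).ne'] at h5
    exact tendsto_nhds_unique h1 h5
  -- the kernel is invariant
  have hker := hirr (LinearMap.ker (T : E →ₗ[ℝ] E)) (by
    intro γ hγ v hv
    rw [LinearMap.mem_ker] at hv ⊢
    have hv' : T v = 0 := hv
    show T ((γ : E →L[ℝ] E) v) = 0
    obtain ⟨C, hC⟩ := hest γ hγ
    have h1 : ∀ r : ℝ, 0 < r → ‖T ((γ : E →L[ℝ] E) v)‖ ^ 2 ≤ C / r * ‖v‖ ^ 2 := by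
      intro r hr
      have h2 : ∀ᶠ n in atTop, ‖G' (φ n) ((γ : E →L[ℝ] E) v)‖ ^ 2 ≤
          Real.exp (2 * r) * ‖G' (φ n) v‖ ^ 2 + C / r * ‖v‖ ^ 2 := by
        filter_upwards [hspos'] with n hn
        have h3 := hC (φ n) r hr v
        have h4 : ∀ x, ‖G' (φ n) x‖ ^ 2 = ((s (φ n))⁻¹) ^ 2 * ‖g (φ n) x‖ ^ 2 := by
          intro x
          have h5 : G' (φ n) x = (s (φ n))⁻¹ • g (φ n) x := rfl
          rw [h5, norm_smul, mul_pow, Real.norm_eq_abs, sq_abs]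
        rw [h4, h4]
        have h5 : ((s (φ n))⁻¹) ^ 2 * hs2 (g (φ n)) = 1 := by
          rw [← hs2eq, ← mul_pow, inv_mul_cancel₀ hn.ne', one_pow]
        have h6 := mul_le_mul_of_nonneg_left h3 (sq_nonneg ((s (φ n))⁻¹))
        calc _ ≤ _ := h6
          _ = Real.exp (2 * r) * ((s (φ n))⁻¹ ^ 2 * ‖g (φ n) v‖ ^ 2) +
              C / r * (((s (φ n))⁻¹) ^ 2 * hs2 (g (φ n))) * ‖v‖ ^ 2 := by ring
          _ = _ := by rw [h5, mul_one]
      have h3 : ∀ x, Tendsto (fun n => ‖G' (φ n) x‖ ^ 2) atTop (𝓝 (‖T x‖ ^ 2)) := by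
        intro x
        have h4 := ((ContinuousLinearMap.apply ℝ E x).continuous.tendsto T).comp hlim
        exact (h4.norm).pow 2
      have h4 := le_of_tendsto_of_tendsto (h3 _) (((h3 v).const_mul _).add_const _) h2
      rw [hv'] at h4
      simpa using h4
    have h2 : ‖T ((γ : E →L[ℝ] E) v)‖ ^ 2 ≤ 0 := by
      have h3 : Tendsto (fun r : ℝ => C / r * ‖v‖ ^ 2) atTop (𝓝 (0 * ‖v‖ ^ 2)) :=
        (tendsto_const_nhds.div_atTop tendsto_id).mul_const _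
      rw [zero_mul] at h3
      refine ge_of_tendsto h3 ?_
      filter_upwards [eventually_gt_atTop 0] with r hr
      exact h1 r hr
    have h3 : ‖T ((γ : E →L[ℝ] E) v)‖ = 0 := by
      have := sq_nonneg ‖T ((γ : E →L[ℝ] E) v)‖
      exact pow_eq_zero_iff (two_ne_zero) |>.1 (le_antisymm h2 this)
    exact norm_eq_zero.1 h3)
  rcases hker with h | h
  · have h1 : LinearMap.det (T : E →ₗ[ℝ] E) ≠ 0 := by
      intro h2
      have := LinearMap.bot_lt_ker_of_det_eq_zero h2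
      rw [h] at this
      exact lt_irrefl _ this
    exact h1 hT0
  · have h1 : T = 0 := by
      ext v
      have : v ∈ LinearMap.ker (T : E →ₗ[ℝ] E) := by rw [h]; trivial
      exact this
    rw [h1] at hT1
    have : hs2 (0 : E →L[ℝ] E) = 0 := by
      have := hs2_smul (0 : ℝ) (0 : E →L[ℝ] E)
      simpa using this
    rw [this] at hT1
    exact zero_ne_one hT1

/-- Mostow's theorem by minimal vectors -/
theorem mostow [Nontrivial E] {G : Subgroup (E →L[ℝ] E)ˣ}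
    (hirr : ∀ W : Submodule ℝ E, (∀ g ∈ G, ∀ v ∈ W, (g : E →L[ℝ] E) v ∈ W) → W = ⊥ ∨ W = ⊤)
    (hdet : ∀ g ∈ G, dt (g : E →L[ℝ] E) = 1)
    (hRs : ∀ T, R (star T) = star (R T)) (hRc : Continuous R)
    (hRd : DifferentiableAt ℝ (R : (E →L[ℝ] E) → (E' →L[ℝ] E')) 1)
    (hw : ∀ g ∈ G, R (g : E →L[ℝ] E) w = w)
    (hG : ∀ g : (E →L[ℝ] E)ˣ, R (g : E →L[ℝ] E) w = w → g ∈ G)
    (A : Set (E →L[ℝ] E)) (hAG : ∀ X ∈ A, ∀ t : ℝ, ∃ g ∈ G, (g : E →L[ℝ] E) = exp (t • X))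
    (hAs : ∀ X ∈ A, star X = X) :
    ∃ g₀ : (E →L[ℝ] E)ˣ, (∀ X ∈ A, (g₀ : E →L[ℝ] E) * X = X * (g₀ : E →L[ℝ] E)) ∧
      ∀ g ∈ G, g₀⁻¹ * star (g₀ * g * g₀⁻¹) * g₀ ∈ G := by
  have hfix : ∀ X ∈ A, ∀ t : ℝ, R (exp (t • X)) w = w := by
    intro X hX t
    obtain ⟨g, hg, hge⟩ := hAG X hX t
    rw [← hge]
    exact hw g hg
  -- minimizers
  have hex : ∀ n : ℕ, ∃ g : E →L[ℝ] E, dt g = 1 ∧ (∀ X ∈ A, g * X = X * g) ∧
      ∀ h, dt h = 1 → Phi R w (1 / ((n : ℝ) + 1)) g ≤ Phi R w (1 / ((n : ℝ) + 1)) h := by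
    intro n
    have hε : (0 : ℝ) < 1 / ((n : ℝ) + 1) := by positivity
    obtain ⟨g, h1, h2, h3⟩ := exists_minimizer w hRc A hε
    exact ⟨g, h1, h2, Phi_min w hRs hRd hAs hfix hε.le h1 h2 h3⟩
  choose g hg1 hg2 hg3 using hex
  have hnt := not_tendsto hirr g hg1 (by
    intro γ hγ
    refine ⟨‖(γ : E →L[ℝ] E)‖ ^ 2 * ‖((γ⁻¹ : (E →L[ℝ] E)ˣ) : E →L[ℝ] E)‖ ^ 2,
      fun n r hr v => ?_⟩
    exact key_estimate w hRs (by positivity) (hg1 n) (hg3 n) γ (hw γ hγ) (hdet γ hγ) hr v)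
  -- a bounded subsequence
  have hfr : ∃ B : ℝ, ∃ᶠ n in atTop, hs2 (g n) ≤ B := by
    by_contra hcon
    push Not at hcon
    apply hnt
    rw [tendsto_atTop]
    intro B
    filter_upwards [hcon B] with n hn
    exact hn.le
  obtain ⟨B, hB⟩ := hfr
  obtain ⟨φ, hφ, hφB⟩ := extraction_of_frequently_atTop hB
  have hbd : ∀ n, g (φ n) ∈ Metric.closedBall (0 : E →L[ℝ] E) (Real.sqrt B) := by
    intro n
    rw [mem_closedBall_zero_iff]
    exact (norm_le_sqrt_hs2 _).trans (Real.sqrt_le_sqrt (hφB n))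
  obtain ⟨T, -, ψ, hψ, hlim⟩ := tendsto_subseq_of_bounded Metric.isBounded_closedBall hbd
  have hlim' : Tendsto (fun n => g (φ (ψ n))) atTop (𝓝 T) := hlim
  have hT1 : dt T = 1 := by
    have h1 : Tendsto (fun n => dt (g (φ (ψ n)))) atTop (𝓝 (dt T)) :=
      (dt_continuous.tendsto T).comp hlim'
    refine tendsto_nhds_unique h1 ?_
    simp only [hg1]
    exact tendsto_const_nhds
  have hTA : ∀ X ∈ A, T * X = X * T := by
    intro X hX
    have h1 : Tendsto (fun n => g (φ (ψ n)) * X) atTop (𝓝 (T * X)) := hlim'.mul_const X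
    have h2 : Tendsto (fun n => g (φ (ψ n)) * X) atTop (𝓝 (X * T)) := by
      have h3 : (fun n => g (φ (ψ n)) * X) = fun n => X * g (φ (ψ n)) := by
        funext n; exact hg2 _ X hX
      rw [h3]
      exact hlim'.const_mul X
    exact tendsto_nhds_unique h1 h2
  have hTmin : ∀ h, dt h = 1 → ‖R T w‖ ^ 2 ≤ ‖R h w‖ ^ 2 := by
    intro h hh
    have h1 : Tendsto (fun n => ‖R (g (φ (ψ n))) w‖ ^ 2) atTop (𝓝 (‖R T w‖ ^ 2)) := by
      have h2 : Continuous fun T : E →L[ℝ] E => ‖R T w‖ ^ 2 :=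
        (((ContinuousLinearMap.apply ℝ E' w).continuous.comp hRc).norm).pow 2
      exact (h2.tendsto T).comp hlim'
    have h2 : Tendsto (fun n => ‖R h w‖ ^ 2 + 1 / (((φ (ψ n) : ℕ) : ℝ) + 1) * hs2 h) atTop
        (𝓝 (‖R h w‖ ^ 2 + 0 * hs2 h)) := by
      refine tendsto_const_nhds.add (Tendsto.mul_const _ ?_)
      exact tendsto_one_div_add_atTop_nhds_zero_nat.comp
        (hφ.tendsto_atTop.comp hψ.tendsto_atTop)
    rw [zero_mul, add_zero] at h2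
    refine le_of_tendsto_of_tendsto' h1 h2 fun n => ?_
    have h3 := hg3 (φ (ψ n)) h hh
    have h4 : 0 ≤ 1 / (((φ (ψ n) : ℕ) : ℝ) + 1) * hs2 (g (φ (ψ n))) :=
      mul_nonneg (by positivity) (hs2_nonneg _)
    unfold Phi at h3
    linarith
  obtain ⟨g₀, hg₀⟩ := exists_unit_of_dt (g := T) (by rw [hT1]; exact one_ne_zero)
  refine ⟨g₀, by rw [hg₀]; exact hTA, ?_⟩
  intro γ hγ
  obtain ⟨b, a, k, hk, hk', hka⟩ := polarGL (g₀ * γ * g₀⁻¹)
  have hdg : dt ((g₀ * γ * g₀⁻¹ : (E →L[ℝ] E)ˣ) : E →L[ℝ] E) = 1 := by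
    have h7 : dt (((g₀ * γ * g₀⁻¹ : (E →L[ℝ] E)ˣ) : E →L[ℝ] E) * T) = dt (T * (γ : E →L[ℝ] E)) := by
      rw [← hg₀, ← Units.val_mul, inv_mul_cancel_right, Units.val_mul]
    rw [dt_mul, dt_mul, hT1, mul_one, hdet γ hγ, mul_one] at h7
    exact h7
  obtain ⟨hdk, hsum⟩ := polar_det hk hka hdg
  set w' := R T w with hw'
  have hfix' : R ((g₀ * γ * g₀⁻¹ : (E →L[ℝ] E)ˣ) : E →L[ℝ] E) w' = w' := by
    rw [hw', ← opmul_apply, ← map_mul]
    have h1 : ((g₀ * γ * g₀⁻¹ : (E →L[ℝ] E)ˣ) : E →L[ℝ] E) * T = T * γ := by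
      rw [← hg₀, ← Units.val_mul, inv_mul_cancel_right, Units.val_mul]
    rw [h1, map_mul, opmul_apply, hw γ hγ]
  rw [hka, map_mul, opmul_apply] at hfix'
  have hn1 : ‖R (Pt b a 1) w'‖ = ‖w'‖ := by
    rw [← R_isom hRs hk (R (Pt b a 1) w'), hfix']
  have hn2 : ‖w'‖ ^ 2 ≤ ‖R (Pt b a (1 / 2)) w'‖ ^ 2 := by
    have h1 := hTmin (Pt b a (1 / 2) * T) (by
      rw [dt_mul, dt_Pt, hsum, mul_zero, Real.exp_zero, one_mul, hT1])
    rwa [map_mul, opmul_apply] at h1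
  have hn3 : R (Pt b a 1) w' = w' := by
    have h1 : ‖R (Pt b a (1 / 2)) w'‖ ^ 2 = ⟪w', R (Pt b a 1) w'⟫_ℝ := by
      rw [← real_inner_self_eq_norm_sq, R_inner hRs]
      congr 3
      norm_num
    have h2 : ‖R (Pt b a 1) w' - w'‖ ^ 2 ≤ 0 := by
      rw [@norm_sub_sq_real, hn1, real_inner_comm, ← h1]
      linarith
    have h3 : ‖R (Pt b a 1) w' - w'‖ = 0 :=
      (pow_eq_zero_iff (two_ne_zero)).1 (le_antisymm h2 (sq_nonneg _))
    exact sub_eq_zero.1 (norm_eq_zero.1 h3)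
  rw [hn3] at hfix'
  have hk1 : R (star k) w' = w' := by
    conv_lhs => rw [← hfix']
    rw [← opmul_apply, ← map_mul, hk, map_one]; rfl
  apply hG
  have h1 : R ((star (g₀ * γ * g₀⁻¹) : (E →L[ℝ] E)ˣ) : E →L[ℝ] E) w' = w' := by
    have h2 : ((star (g₀ * γ * g₀⁻¹) : (E →L[ℝ] E)ˣ) : E →L[ℝ] E) = Pt b a 1 * star k := by
      rw [Units.coe_star, hka, star_mul, Pt_star]
    rw [h2, map_mul, opmul_apply, hk1, hn3]
  have h2 : R (g₀⁻¹ : (E →L[ℝ] E)ˣ) w' = w := by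
    rw [hw', ← hg₀, ← opmul_apply, ← map_mul, Units.inv_mul, map_one]; rfl
  rw [Units.val_mul, Units.val_mul, map_mul, map_mul, opmul_apply, opmul_apply]
  have h3 : R (g₀ : E →L[ℝ] E) w = w' := by rw [hw', hg₀]
  rw [h3, h1, h2]

end Pool.Agent.Lib.MP_d9b062_al.H9
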